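import Mathlib

set_option autoImplicit false

namespace Q156G

/-- the energy of an entry: `x²` for small entries, `|x|` for large ones -/
noncomputable def gg (x : ℝ) : ℝ := min (x ^ 2) |x|

theorem gg_nonneg (x : ℝ) : 0 ≤ gg x := le_min (sq_nonneg _) (abs_nonneg _)

theorem gg_zero : gg 0 = 0 := by simp [gg]

theorem gg_eq_zero {x : ℝ} (h : gg x ≤ 0) : x = 0 := by
  unfold gg at h
  rcases min_le_iff.1 h with h | h
  · exact pow_eq_zero_iff two_ne_zero |>.mp (le_antisymm h (sq_nonneg _))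
  · exact abs_nonpos_iff.1 h

theorem sq_le_gg {x θ : ℝ} (h : |x| ≤ θ) (hθ : θ ≤ 1) : x ^ 2 ≤ gg x := by
  unfold gg
  refine le_min le_rfl ?_
  rw [← sq_abs, pow_two]
  have := abs_nonneg x
  nlinarith

/-- large entries have energy comparable to the mass -/
theorem abs_le_gg {x θ : ℝ} (h : θ < |x|) (h0 : 0 < θ) (hθ : θ ≤ 1) : |x| * θ ≤ gg x := by
  unfold gg
  have := abs_nonneg x
  refine le_min ?_ (by nlinarith)
  rw [← sq_abs, pow_two]
  exact mul_le_mul_of_nonneg_left h.le this

end Q156G
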