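import Pool.Agent.Q156.G.Num

set_option autoImplicit false

/-!
# The Komlós problem between `ℓ_1` and `ℓ_2`
-/

namespace Q156G

open Finset Real

variable {m n : ℕ}

theorem gg_add (a b : ℝ) : gg (a + b) ≤ 2 * |a| + 4 * b ^ 2 := by
  unfold gg
  have h := abs_add_le a b
  have ha := abs_nonneg a
  have hb := abs_nonneg b
  rcases le_total |b| |a| with h1 | h1
  · refine (min_le_right _ _).trans ?_
    nlinarith [sq_nonneg b]
  · refine (min_le_left _ _).trans ?_
    have h2 : |a + b| ≤ 2 * |b| := by linarith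
    have h3 : (a + b) ^ 2 ≤ (2 * |b|) ^ 2 := by
      rw [← sq_abs]
      exact pow_le_pow_left₀ (abs_nonneg _) h2 2
    rw [mul_pow, sq_abs] at h3
    linarith

theorem log_twenty : log 20 ≤ 3 := by
  rw [Real.log_le_iff_le_exp (by norm_num)]
  have h1 := Real.exp_one_gt_d9
  have h2 : exp 3 = exp 1 ^ 3 := by rw [← exp_nat_mul]; norm_num
  rw [h2]
  have h3 : (2.7182818 : ℝ) ^ 3 ≤ exp 1 ^ 3 := pow_le_pow_left₀ (by norm_num) (by linarith) 3
  refine le_trans ?_ h3
  norm_num

/-- **Sums of a vector of the `ℓ_1` ball and `δ` times a vector of the `ℓ_2` ball.** -/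
theorem kfun (u w : Fin m → Fin n → ℝ) (δ : ℝ) (hδ0 : 0 ≤ δ) (hδ1 : δ ≤ 1)
    (hu : ∀ j, ∑ i, |u i j| ≤ 1) (hw : ∀ j, ∑ i, w i j ^ 2 ≤ δ ^ 2)
    (x₀ : Fin n → ℝ) (hx₀ : ∀ j, |x₀ j| ≤ 1) :
    ∃ x : Fin n → ℝ, (∀ j, x j = 1 ∨ x j = -1) ∧
      ∀ i, |∑ j, (u i j + w i j) * (x j - x₀ j)| ≤
        23000000 * (1 + δ * Real.sqrt (R (LL (min m n)))) := by
  classical
  set N := min m n with hN
  have hL := one_le_LL N
  set L := LL N with hLdef
  have hR := one_le_R hL
  set S := Real.sqrt (R L) with hS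
  have hS1 : 1 ≤ S := Real.one_le_sqrt.2 hR
  have hS2 : S ^ 2 = R L := Real.sq_sqrt (by linarith)
  have hSR : S ≤ R L := by rw [← hS2]; nlinarith
  have hδS : 0 ≤ δ * S := by positivity
  have hδS1 : δ * S ≤ S := by nlinarith
  set θ : ℝ := (1 + δ * S) / (2 * R L) with hθ
  have hθ0 : 0 < θ := by positivity
  have hθ1 : θ ≤ 1 := by
    rw [hθ, div_le_one (by positivity)]
    linarith
  set t : ℝ := 2 / θ + 4 * δ ^ 2 / θ ^ 2 with ht
  have ht1 : 1 ≤ t := by
    have h1 : 2 ≤ 2 / θ := by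
      rw [le_div_iff₀ hθ0]; linarith
    have h2 : 0 ≤ 4 * δ ^ 2 / θ ^ 2 := by positivity
    linarith
  have hcol : ∀ j, ∑ i, gg ((u i j + w i j) / θ) ≤ t := by
    intro j
    calc ∑ i, gg ((u i j + w i j) / θ) ≤ ∑ i, (2 * |u i j| / θ + 4 * w i j ^ 2 / θ ^ 2) := by
          refine Finset.sum_le_sum fun i _ => ?_
          rw [add_div]
          refine (gg_add _ _).trans (le_of_eq ?_)
          rw [abs_div, abs_of_pos hθ0, div_pow]
          ring
      _ = 2 / θ * ∑ i, |u i j| + 4 / θ ^ 2 * ∑ i, w i j ^ 2 := by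
          rw [Finset.sum_add_distrib, Finset.mul_sum, Finset.mul_sum]
          congr 1
          · exact Finset.sum_congr rfl fun i _ => by ring
          · exact Finset.sum_congr rfl fun i _ => by ring
      _ ≤ 2 / θ * 1 + 4 / θ ^ 2 * δ ^ 2 := by
          apply add_le_add
          · exact mul_le_mul_of_nonneg_left (hu j) (by positivity)
          · exact mul_le_mul_of_nonneg_left (hw j) (by positivity)
      _ = t := by rw [ht]; ring
  -- sizes
  have hθt : θ * t ≤ 2 + 8 * (δ * S) := by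
    have h1 : θ * t = 2 + 4 * δ ^ 2 / θ := by
      rw [ht]; field_simp
    have h2 : δ ^ 2 / θ ≤ 2 * (δ * S) := by
      rw [div_le_iff₀ hθ0, hθ, ← hS2]
      have h3 : 2 * (δ * S) * ((1 + δ * S) / (2 * S ^ 2)) = (δ * S) * (1 + δ * S) / S ^ 2 := by
        field_simp
      rw [h3, le_div_iff₀ (by positivity)]
      nlinarith
    rw [h1]
    have h3 : 4 * δ ^ 2 / θ = 4 * (δ ^ 2 / θ) := by ring
    rw [h3]
    linarith
  have ht20 : t ≤ 20 * R L := by
    have h1 : 2 / θ ≤ 4 * R L := by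
      rw [div_le_iff₀ hθ0, hθ]
      have h3 : 4 * R L * ((1 + δ * S) / (2 * R L)) = 2 * (1 + δ * S) := by
        field_simp
        ring
      rw [h3]
      linarith
    have h2 : δ / θ ≤ 2 * S := by
      rw [div_le_iff₀ hθ0, hθ, ← hS2]
      have h3 : 2 * S * ((1 + δ * S) / (2 * S ^ 2)) = (1 + δ * S) / S := by
        field_simp
      rw [h3, le_div_iff₀ (by positivity)]
      linarith
    have h3 : 4 * δ ^ 2 / θ ^ 2 = 4 * (δ / θ) ^ 2 := by ring
    have h4 : (δ / θ) ^ 2 ≤ (2 * S) ^ 2 := pow_le_pow_left₀ (by positivity) h2 2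
    rw [mul_pow, hS2] at h4
    rw [ht, h3]
    linarith
  have hcost := cost_R (N := N) ht1 (by norm_num : (1 : ℝ) ≤ 20) ht20
  have h20 : (1 + log 20) ^ (3 / 2 : ℝ) ≤ 8 := by
    have h1 : (1 + log 20 : ℝ) ≤ 4 := by linarith [log_twenty]
    have h0 : (0 : ℝ) ≤ 1 + log 20 := by linarith [Real.log_nonneg (by norm_num : (1 : ℝ) ≤ 20)]
    calc (1 + log 20 : ℝ) ^ (3 / 2 : ℝ) ≤ 4 ^ (3 / 2 : ℝ) :=
          Real.rpow_le_rpow h0 h1 (by norm_num)
      _ = 8 := by
          rw [show (4 : ℝ) = 2 ^ (2 : ℝ) by norm_num, ← Real.rpow_mul (by norm_num)]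
          norm_num
  have hθR : θ * R L = (1 + δ * S) / 2 := by
    rw [hθ]; field_simp
  obtain ⟨x, hx1, hx2⟩ := round (fun i j => (u i j + w i j) / θ) t ht1 hcol x₀ hx₀
  refine ⟨x, hx1, fun i => ?_⟩
  have h1 := hx2 i
  have h2 : ∑ j, (u i j + w i j) * (x j - x₀ j)
      = θ * ∑ j, (u i j + w i j) / θ * (x j - x₀ j) := by
    rw [Finset.mul_sum]
    exact Finset.sum_congr rfl fun j _ => by field_simp
  rw [h2, abs_mul, abs_of_pos hθ0]
  have h3 : fin t (1 / (2 * (((min m n : ℕ) : ℝ) + 1))) ≤ 3240 * t + 22560000 * R L := by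
    unfold fin
    rw [mul_assoc]
    have h4 : 3 * (1 + log 20) ^ (3 / 2 : ℝ) * R L ≤ 24 * R L := by
      apply mul_le_mul_of_nonneg_right _ (by linarith)
      linarith
    have h5 := hcost.trans h4
    linarith
  calc θ * |∑ j, (u i j + w i j) / θ * (x j - x₀ j)|
      ≤ θ * (2 * (3240 * t + 22560000 * R L)) := by
        apply mul_le_mul_of_nonneg_left _ hθ0.le
        linarith
    _ = 6480 * (θ * t) + 45120000 * (θ * R L) := by ring
    _ ≤ _ := by
        rw [hθR]
        linarith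

/-- **Vectors of the `ℓ_p` ball.** -/
theorem lp (v : Fin m → Fin n → ℝ) (p : ℝ) (hp1 : 1 ≤ p) (hp2 : p ≤ 2)
    (hv : ∀ j, ∑ i, |v i j| ^ p ≤ 1)
    (x₀ : Fin n → ℝ) (hx₀ : ∀ j, |x₀ j| ≤ 1) :
    ∃ x : Fin n → ℝ, (∀ j, x j = 1 ∨ x j = -1) ∧
      ∀ i, |∑ j, v i j * (x j - x₀ j)| ≤
        46000000 * R (LL (min m n)) ^ (1 - 1 / p) := by
  classical
  set N := min m n with hN
  have hL := one_le_LL N
  set L := LL N with hLdef
  have hR := one_le_R hL
  have hR0 : 0 < R L := by linarith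
  have hp0 : 0 < p := by linarith
  set θ : ℝ := R L ^ (-1 / p) with hθ
  have hθ0 : 0 < θ := by positivity
  set lam : ℝ := θ ^ (p - 1) with hlam
  have hlam0 : 0 < lam := by positivity
  set δ : ℝ := θ ^ (p / 2) with hδ
  have hθ1 : θ ≤ 1 := by
    rw [hθ]
    apply Real.rpow_le_one_of_one_le_of_nonpos hR
    rw [neg_div]
    have : 0 < 1 / p := by positivity
    linarith
  have hδ0 : 0 ≤ δ := by positivity
  have hδ1 : δ ≤ 1 := Real.rpow_le_one hθ0.le hθ1 (by positivity)
  have hδS : δ * Real.sqrt (R L) = 1 := by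
    rw [hδ, hθ, ← Real.rpow_mul hR0.le, Real.sqrt_eq_rpow, ← Real.rpow_add hR0]
    have : -1 / p * (p / 2) + 1 / 2 = 0 := by field_simp; ring
    rw [this, Real.rpow_zero]
  obtain ⟨x, hx1, hx2⟩ := kfun (fun i j => if θ < |v i j| then lam * v i j else 0)
    (fun i j => if θ < |v i j| then 0 else lam * v i j) δ hδ0 hδ1
    (by
      intro j
      refine (Finset.sum_le_sum fun i _ => ?_).trans (hv j)
      show |if θ < |v i j| then lam * v i j else 0| ≤ |v i j| ^ p
      split_ifs with h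
      · have hv0 : 0 < |v i j| := hθ0.trans h
        rw [abs_mul, abs_of_pos hlam0]
        have h1 : lam ≤ |v i j| ^ (p - 1) := Real.rpow_le_rpow hθ0.le h.le (by linarith)
        calc lam * |v i j| ≤ |v i j| ^ (p - 1) * |v i j| :=
              mul_le_mul_of_nonneg_right h1 hv0.le
          _ = |v i j| ^ p := by
              rw [← Real.rpow_add_one hv0.ne']; congr 1; ring
      · rw [abs_zero]; positivity)
    (by
      intro j
      calc ∑ i, (if θ < |v i j| then 0 else lam * v i j) ^ 2 ≤ ∑ i, δ ^ 2 * |v i j| ^ p := by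
            refine Finset.sum_le_sum fun i _ => ?_
            split_ifs with h
            · rw [zero_pow two_ne_zero]; positivity
            · push Not at h
              rcases (abs_nonneg (v i j)).eq_or_lt with h0 | h0
              · have : v i j = 0 := abs_eq_zero.1 h0.symm
                rw [this]
                simp only [mul_zero, ne_eq, OfNat.ofNat_ne_zero, not_false_eq_true, zero_pow,
                  abs_zero]
                positivity
              · rw [mul_pow, ← sq_abs (v i j)]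
                have e1 : |v i j| ^ 2 = |v i j| ^ (2 - p) * |v i j| ^ p := by
                  rw [← Real.rpow_add h0]
                  have : (2 : ℝ) - p + p = (2 : ℕ) := by norm_num
                  rw [this, Real.rpow_natCast]
                have e2 : |v i j| ^ (2 - p) ≤ θ ^ (2 - p) :=
                  Real.rpow_le_rpow h0.le h (by linarith)
                have e3 : lam ^ 2 * θ ^ (2 - p) = δ ^ 2 := by
                  rw [hlam, hδ, ← Real.rpow_natCast, ← Real.rpow_natCast, ← Real.rpow_mul hθ0.le,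
                    ← Real.rpow_mul hθ0.le, ← Real.rpow_add hθ0]
                  congr 1
                  push_cast
                  ring
                calc lam ^ 2 * |v i j| ^ 2 = lam ^ 2 * (|v i j| ^ (2 - p) * |v i j| ^ p) := by
                      rw [e1]
                  _ ≤ lam ^ 2 * (θ ^ (2 - p) * |v i j| ^ p) := by
                      apply mul_le_mul_of_nonneg_left _ (by positivity)
                      exact mul_le_mul_of_nonneg_right e2 (by positivity)
                  _ = δ ^ 2 * |v i j| ^ p := by rw [← mul_assoc, e3]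
        _ = δ ^ 2 * ∑ i, |v i j| ^ p := by rw [Finset.mul_sum]
        _ ≤ δ ^ 2 * 1 := mul_le_mul_of_nonneg_left (hv j) (by positivity)
        _ = δ ^ 2 := mul_one _)
    x₀ hx₀
  refine ⟨x, hx1, fun i => ?_⟩
  have h1 := hx2 i
  have h2 : ∑ j, ((if θ < |v i j| then lam * v i j else 0)
      + (if θ < |v i j| then 0 else lam * v i j)) * (x j - x₀ j)
      = lam * ∑ j, v i j * (x j - x₀ j) := by
    rw [Finset.mul_sum]
    refine Finset.sum_congr rfl fun j _ => ?_
    split_ifs <;> ring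
  rw [h2, abs_mul, abs_of_pos hlam0, hδS] at h1
  have h3 : lam * R L ^ (1 - 1 / p) = 1 := by
    rw [hlam, hθ, ← Real.rpow_mul hR0.le, ← Real.rpow_add hR0]
    have : -1 / p * (p - 1) + (1 - 1 / p) = 0 := by field_simp; ring
    rw [this, Real.rpow_zero]
  have h4 : lam * |∑ j, v i j * (x j - x₀ j)| ≤ lam * (46000000 * R L ^ (1 - 1 / p)) := by
    have h5 : lam * (46000000 * R L ^ (1 - 1 / p)) = 46000000 * (lam * R L ^ (1 - 1 / p)) := by
      ring
    rw [h5, h3]
    linarith
  exact le_of_mul_le_mul_left h4 hlam0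

/-- exponents close to one -/
theorem near_one {N : ℕ} {p A : ℝ} (hp1 : 1 ≤ p) (hA : (p - 1) * log (LL N) ≤ A) :
    R (LL N) ^ (1 - 1 / p) ≤ exp (2 * A) := by
  have hL := one_le_LL N
  have hR := one_le_R hL
  have hp0 : 0 < p := by linarith
  have h1 : 1 - 1 / p ≤ p - 1 := by
    have : 1 - 1 / p = (p - 1) / p := by field_simp
    rw [this, div_le_iff₀ hp0]
    nlinarith
  calc R (LL N) ^ (1 - 1 / p) ≤ R (LL N) ^ (p - 1) := Real.rpow_le_rpow_of_exponent_le hR h1
    _ = exp (log (R (LL N)) * (p - 1)) := Real.rpow_def_of_pos (by linarith) _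
    _ ≤ exp (2 * A) := by
        apply exp_le_exp.2
        have h2 := mul_le_mul_of_nonneg_right (log_R_le hL) (by linarith : (0 : ℝ) ≤ p - 1)
        linarith

end Q156G
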