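import Pool.Agent.Q156.G.Round

set_option autoImplicit false

/-!
# The numerical part
-/

namespace Q156G

open Finset Real

/-- `S(L)² = √L (1 + log L)^{3/2}` -/
noncomputable def R (L : ℝ) : ℝ := Real.sqrt L * (1 + log L) ^ (3 / 2 : ℝ)

/-- `1 + log (1 + N)` -/
noncomputable def LL (N : ℕ) : ℝ := 1 + log (1 + N)

theorem one_le_LL (N : ℕ) : 1 ≤ LL N := by
  unfold LL
  have : 0 ≤ log (1 + (N : ℝ)) := Real.log_nonneg (by linarith [Nat.cast_nonneg (α := ℝ) N])
  linarith

theorem one_le_R {L : ℝ} (hL : 1 ≤ L) : 1 ≤ R L := by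
  unfold R
  have h1 : 1 ≤ Real.sqrt L := Real.one_le_sqrt.2 hL
  have h2 : 1 ≤ (1 + log L) ^ (3 / 2 : ℝ) :=
    Real.one_le_rpow (by linarith [Real.log_nonneg hL]) (by norm_num)
  nlinarith

theorem log_R_le {L : ℝ} (hL : 1 ≤ L) : log (R L) ≤ 2 * log L := by
  have h0 : 0 ≤ log L := Real.log_nonneg hL
  have hL0 : 0 < L := by linarith
  unfold R
  rw [Real.log_mul (by positivity) (by positivity), Real.log_sqrt hL0.le,
    Real.log_rpow (by linarith)]
  have h1 : log (1 + log L) ≤ log L := by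
    have := Real.log_le_sub_one_of_pos (show 0 < 1 + log L by linarith)
    linarith
  linarith

theorem loglam (N : ℕ) : log (1 / (1 / (2 * ((N : ℝ) + 1)))) ≤ LL N := by
  have hN : (0 : ℝ) ≤ N := Nat.cast_nonneg N
  rw [one_div_one_div, Real.log_mul (by norm_num) (by positivity)]
  unfold LL
  have h2 : log 2 ≤ 1 := by
    have := Real.log_two_lt_d9
    linarith
  rw [add_comm (N : ℝ) 1]
  linarith

/-- the cost for `t` comparable with `R L` -/
theorem cost_R {N : ℕ} {t c : ℝ} (ht : 1 ≤ t) (hc : 1 ≤ c) (htc : t ≤ c * R (LL N)) :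
    Real.sqrt (log (1 / (1 / (2 * ((N : ℝ) + 1))))) * (1 + log t) ^ (3 / 2 : ℝ)
      ≤ 3 * (1 + log c) ^ (3 / 2 : ℝ) * R (LL N) := by
  have hL := one_le_LL N
  set L := LL N with hLdef
  have hR := one_le_R hL
  have hlogc : 0 ≤ log c := Real.log_nonneg hc
  have hlogL : 0 ≤ log L := Real.log_nonneg hL
  have h1 : Real.sqrt (log (1 / (1 / (2 * ((N : ℝ) + 1))))) ≤ Real.sqrt L :=
    Real.sqrt_le_sqrt (loglam N)
  have h2 : log t ≤ log c + 2 * log L := by
    calc log t ≤ log (c * R L) := Real.log_le_log (by linarith) htc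
      _ = log c + log (R L) := Real.log_mul (by positivity) (by positivity)
      _ ≤ _ := by linarith [log_R_le hL]
  have h3 : 1 + log t ≤ 2 * ((1 + log c) * (1 + log L)) := by nlinarith
  have h4 : (1 + log t) ^ (3 / 2 : ℝ) ≤
      3 * ((1 + log c) ^ (3 / 2 : ℝ) * (1 + log L) ^ (3 / 2 : ℝ)) := by
    calc (1 + log t) ^ (3 / 2 : ℝ) ≤ (2 * ((1 + log c) * (1 + log L))) ^ (3 / 2 : ℝ) :=
          Real.rpow_le_rpow (by linarith [Real.log_nonneg ht]) h3 (by norm_num)
      _ = 2 ^ (3 / 2 : ℝ) * ((1 + log c) ^ (3 / 2 : ℝ) * (1 + log L) ^ (3 / 2 : ℝ)) := by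
          rw [Real.mul_rpow (by norm_num) (mul_nonneg (by linarith) (by linarith)),
            Real.mul_rpow (by linarith) (by linarith)]
      _ ≤ _ := by
          apply mul_le_mul_of_nonneg_right _
            (mul_nonneg (Real.rpow_nonneg (by linarith) _) (Real.rpow_nonneg (by linarith) _))
          have h5 : (2 : ℝ) ^ (3 / 2 : ℝ) = 2 * Real.sqrt 2 := by
            rw [Real.sqrt_eq_rpow, ← Real.rpow_one_add' (by norm_num) (by norm_num)]
            norm_num
          rw [h5]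
          have h6 : Real.sqrt 2 ≤ 3 / 2 := by
            rw [Real.sqrt_le_left (by norm_num)]; norm_num
          linarith
  calc _ ≤ Real.sqrt L * (3 * ((1 + log c) ^ (3 / 2 : ℝ) * (1 + log L) ^ (3 / 2 : ℝ))) :=
        mul_le_mul h1 h4 (Real.rpow_nonneg (by linarith [Real.log_nonneg ht]) _) (by positivity)
    _ = _ := by unfold R; ring

end Q156G
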