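import Pool.Agent.Q156.G.Weight
import Pool.Agent.H167R2.BFLin
import Pool.Agent.Y963.BF.Lin

set_option autoImplicit false

/-!
# Rounding from an arbitrary starting point, columns of bounded `gg`-energy
-/

namespace Q156G

open Finset Real

variable {m n : ℕ}

/-- fractional coordinates -/
noncomputable def al (x : Fin n → ℝ) : Finset (Fin n) := H167FK.Sys.alive x

theorem mem_al {x : Fin n → ℝ} {j : Fin n} : j ∈ al x ↔ |x j| < 1 := by
  unfold al H167FK.Sys.alive
  simp

/-- Moving to a point with few fractional coordinates without changing the row sums. -/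
theorem reduce (a : Fin m → Fin n → ℝ) : ∀ (k : ℕ) (x : Fin n → ℝ), (∀ j, |x j| ≤ 1) →
    (al x).card ≤ k →
    ∃ y : Fin n → ℝ, (∀ j, |y j| ≤ 1) ∧ (∀ i, ∑ v, a i v * (y v - x v) = 0) ∧
      (al y).card ≤ m := by
  classical
  intro k
  induction k with
  | zero =>
    intro x hx hn
    exact ⟨x, hx, fun i => by simp, hn.trans (Nat.zero_le _)⟩
  | succ k ih =>
    intro x hx hn
    by_cases hc : (al x).card ≤ m
    · exact ⟨x, hx, fun i => by simp, hc⟩
    · push Not at hc
      obtain ⟨u, huF, ⟨v0, hv0, huv0⟩, hu⟩ := H167BF.exists_direction (al x)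
        (Finset.univ : Finset (Fin m)) (fun i => H167FK.Sys.lin (a i)) (by simpa using hc)
      have hu' : ∀ i, ∑ v, a i v * u v = 0 := by
        intro i
        have := hu i (Finset.mem_univ i)
        rwa [H167FK.Sys.lin_apply] at this
      obtain ⟨s, hs0, hs1, k, hk, hkw, hkt⟩ := H167BF.ray_lemma
        (Finset.univ : Finset (Fin n × Bool))
        (fun q => if q.2 then x q.1 else - x q.1) (fun q => if q.2 then u q.1 else - u q.1)
        (fun _ => 1)
        (by
          rintro ⟨v, b⟩ -
          have := abs_le.mp (hx v)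
          cases b <;> simp <;> linarith)
        (by
          rcases lt_or_gt_of_ne huv0 with h | h
          · exact ⟨(v0, false), by simp, by simpa using h⟩
          · exact ⟨(v0, true), by simp, by simpa using h⟩)
      set x' : Fin n → ℝ := fun v => x v + s * u v with hx'
      have hbox : ∀ j, |x' j| ≤ 1 := by
        intro j
        have h1 := hs1 (j, true) (Finset.mem_univ _)
        have h2 := hs1 (j, false) (Finset.mem_univ _)
        simp only [if_true, Bool.false_eq_true, if_false] at h1 h2
        rw [abs_le]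
        constructor
        · simp only [hx']; linarith
        · simp only [hx']; linarith
      have hk1 : k.1 ∈ al x := by
        by_contra hcon
        have h1 := huF k.1 hcon
        rcases hb : k.2 with _ | _
        · rw [hb] at hkw; simp [h1] at hkw
        · rw [hb] at hkw; simp [h1] at hkw
      have hk2 : k.1 ∉ al x' := by
        rw [mem_al]
        intro hlt
        have h3 := abs_lt.mp hlt
        rcases hb : k.2 with _ | _
        · rw [hb] at hkt
          simp only [Bool.false_eq_true, if_false] at hkt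
          simp only [hx'] at h3
          linarith [h3.1]
        · rw [hb] at hkt
          simp only [if_true] at hkt
          simp only [hx'] at h3
          linarith [h3.2]
      have hsub : al x' ⊆ al x := by
        intro j hj
        by_contra hcon
        have h1 : x' j = x j := by simp only [hx', huF j hcon, mul_zero, add_zero]
        rw [mem_al] at hj hcon
        rw [h1] at hj
        exact hcon hj
      have hlt : (al x').card < (al x).card := by
        apply Finset.card_lt_card
        exact ⟨hsub, fun hcon => hk2 (hcon hk1)⟩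
      obtain ⟨y, hy1, hy2, hy3⟩ := ih x' hbox (by omega)
      refine ⟨y, hy1, fun i => ?_, hy3⟩
      have h1 := hy2 i
      have h2 : ∑ v, a i v * (y v - x v) = ∑ v, a i v * (y v - x' v) + s * ∑ v, a i v * u v := by
        rw [Finset.mul_sum, ← Finset.sum_add_distrib]
        exact Finset.sum_congr rfl fun v _ => by simp only [hx']; ring
      rw [h2, h1, hu' i]; ring

/-- signing of small subfamilies -/
theorem signing (a : Fin m → Fin n → ℝ) (t : ℝ) (ht : 1 ≤ t)
    (hcol : ∀ j, ∑ i, gg (a i j) ≤ t) (N : ℕ) (X : Finset (Fin n)) (hX : X.card ≤ N) :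
    ∃ e : Fin n → ℝ, (∀ j, e j = 1 ∨ e j = -1) ∧
      ∀ i, |∑ j ∈ X, a i j * e j| ≤ fin t (1 / (2 * ((N : ℝ) + 1))) := by
  classical
  have hN : (0 : ℝ) ≤ N := Nat.cast_nonneg N
  have hε : (1 : ℝ) / (2 * ((N : ℝ) + 1)) ≤ 1 / 2 := by
    apply one_div_le_one_div_of_le <;> linarith
  have hε0 : (0 : ℝ) < 1 / (2 * ((N : ℝ) + 1)) := by positivity
  obtain ⟨x, hx1, hx2, hx3⟩ := weighted (fun i j => if j ∈ X then a i j else 0) t ht
    (by
      intro j
      refine (Finset.sum_le_sum fun i _ => ?_).trans (hcol j)
      show gg (if j ∈ X then a i j else 0) ≤ gg (a i j)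
      split_ifs
      · exact le_rfl
      · rw [gg_zero]; exact gg_nonneg _)
    (1 / (2 * ((N : ℝ) + 1))) hε0 hε (fun j => if j ∈ X then 1 else 0)
    (by intro j; split_ifs <;> norm_num)
  have hsX : ∑ j, (if j ∈ X then (1 : ℝ) else 0) = X.card := by simp
  rw [hsX] at hx3
  have hXN : (X.card : ℝ) ≤ N := by exact_mod_cast hX
  have hlt : (1 : ℝ) / (2 * ((N : ℝ) + 1)) * X.card < 1 := by
    rw [div_mul_eq_mul_div, one_mul, div_lt_one (by positivity)]
    linarith
  have hsign : ∀ j ∈ X, ¬ |x j| < 1 := by
    intro j hj hlt1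
    have h1 := Finset.single_le_sum (f := fun j => if |x j| < 1 then (if j ∈ X then (1 : ℝ) else 0)
      else 0) (fun j _ => by split_ifs <;> norm_num) (Finset.mem_univ j)
    simp only [if_pos hlt1, if_pos hj] at h1
    linarith
  refine ⟨fun j => if j ∈ X then x j else 1, fun j => ?_, fun i => ?_⟩
  · dsimp only
    split_ifs with hj
    · have h1 := hsign j hj
      have h2 : |x j| = 1 := le_antisymm (hx1 j) (not_lt.1 h1)
      exact eq_or_eq_neg_of_abs_eq h2
    · exact Or.inl rfl
  · have h1 := hx2 i
    have h2 : ∑ j, (if j ∈ X then a i j else 0) * x j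
        = ∑ j ∈ X, a i j * (if j ∈ X then x j else 1) := by
      rw [← Finset.sum_subset (Finset.subset_univ X)]
      · refine Finset.sum_congr rfl fun j hj => ?_
        rw [if_pos hj, if_pos hj]
      · intro j _ hj
        rw [if_neg hj, zero_mul]
    rw [← h2]
    exact h1

/-- **Rounding.** -/
theorem round (a : Fin m → Fin n → ℝ) (t : ℝ) (ht : 1 ≤ t)
    (hcol : ∀ j, ∑ i, gg (a i j) ≤ t) (x₀ : Fin n → ℝ) (hx₀ : ∀ j, |x₀ j| ≤ 1) :
    ∃ x : Fin n → ℝ, (∀ j, x j = 1 ∨ x j = -1) ∧
      ∀ i, |∑ j, a i j * (x j - x₀ j)| ≤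
        2 * fin t (1 / (2 * (((min m n : ℕ) : ℝ) + 1))) := by
  classical
  obtain ⟨y, hy1, hy2, hy3⟩ := reduce a _ x₀ hx₀ le_rfl
  have hcard : (al y).card ≤ min m n := by
    refine le_min hy3 ?_
    have := Finset.card_le_univ (al y)
    simpa using this
  have hlogt : 0 ≤ log t := Real.log_nonneg ht
  have hB : 0 ≤ fin t (1 / (2 * (((min m n : ℕ) : ℝ) + 1))) := by
    unfold fin
    positivity
  obtain ⟨x, hx1, hx2⟩ := Pool.Agent.Y963.BF.Lin.lin a
    (fun _ => fin t (1 / (2 * (((min m n : ℕ) : ℝ) + 1)))) (fun _ => hB) (al y)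
    (by
      intro X hX
      exact signing a t ht hcol _ X ((Finset.card_le_card hX).trans hcard))
    y hy1 (by
      intro j hj
      rw [mem_al, not_lt] at hj
      exact le_antisymm (hy1 j) hj)
  refine ⟨x, hx1, fun i => ?_⟩
  have h1 : ∑ j, a i j * (x j - x₀ j) = ∑ j, a i j * (x j - y j) + ∑ j, a i j * (y j - x₀ j) := by
    rw [← Finset.sum_add_distrib]
    exact Finset.sum_congr rfl fun j _ => by ring
  rw [h1, hy2 i, add_zero]
  exact hx2 i

end Q156G
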