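import Pool.Agent.Q156.G.Sys
import Pool.Agent.H167R2.BJCalc

/-!
# The extremal step inside a component
-/

namespace Q156G

open Finset Real Filter Topology H167BJ H167BK H167KL

variable {I J T : Type*} [Fintype I] [Fintype J]

namespace Sys

variable (P : Sys I J T)

/-- Kept entries of a row at its current level. -/
noncomputable def am (F : Finset J) (i : I) (v : J) : ℝ := P.sm (P.lev F i) i v

open Classical in
/-- Medium rows meeting `F'`. -/
noncomputable def R (F F' : Finset J) : Finset I :=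
  (P.med F).filter (fun i => ∃ v ∈ F', P.am F i v ≠ 0)

/-- The feasible region of a step. -/
def Fs (F F' : Finset J) (x : J → ℝ) : Set (J → ℝ) :=
  {y | (∀ j ∉ F', y j = x j) ∧ (∀ j, |y j| ≤ 1) ∧ (∀ i ∈ P.I0, P.A i y = 0) ∧
    (∀ i ∈ P.big F, P.A i y = 0) ∧
    ∀ i ∈ P.med F, P.V (P.lev F i) F i y ≤ P.Bd (P.lev F i) i}

/-- Current value of `B`. -/
noncomputable def Bm (F : Finset J) (i : I) (y : J → ℝ) : ℝ := P.B (P.lev F i) F i y

/-- Weighted potential of a medium row. -/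
noncomputable def W (F : Finset J) (y : J → ℝ) (i : I) : ℝ :=
  P.w (P.lev F i) * P.φ (P.lev F i) F i y

/-- The constant factor of a row potential. -/
noncomputable def Cc (F : Finset J) (i : I) : ℝ :=
  P.w (P.lev F i) * exp (-(P.lam (P.lev F i) * P.Bd (P.lev F i) i))
    * exp (2 * P.lam (P.lev F i) * P.dr (P.lev F i) F i)

theorem W_pos (F : Finset J) (y : J → ℝ) (i : I) : 0 < P.W F y i :=
  mul_pos (P.hw _) (P.φ_pos _ _ _ _)

theorem Bm_line (F : Finset J) (i : I) (y u : J → ℝ) (hu : ∀ j ∉ F, u j = 0) (s : ℝ) :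
    P.Bm F i (fun j => y j + s * u j) = P.Bm F i y + s * ∑ v, P.am F i v * u v := by
  classical
  unfold Bm B A am
  have h1 : ∑ v, P.sm (P.lev F i) i v * u v = ∑ v, P.a i v * u v
      - ∑ v ∈ F, (P.a i v - P.sm (P.lev F i) i v) * u v := by
    have h2 : ∑ v ∈ F, (P.a i v - P.sm (P.lev F i) i v) * u v
        = ∑ v, (P.a i v - P.sm (P.lev F i) i v) * u v := by
      refine Finset.sum_subset (Finset.subset_univ F) fun v _ hv => ?_
      rw [hu v hv, mul_zero]
    rw [h2, ← Finset.sum_sub_distrib]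
    exact Finset.sum_congr rfl fun v _ => by ring
  rw [h1, mul_sub, Finset.mul_sum, Finset.mul_sum]
  have h3 : ∑ v, P.a i v * (y v + s * u v - P.x0 v) = ∑ v, P.a i v * (y v - P.x0 v)
      + ∑ v, s * (P.a i v * u v) := by
    rw [← Finset.sum_add_distrib]
    exact Finset.sum_congr rfl fun v _ => by ring
  have h4 : ∑ v ∈ F, (P.a i v - P.sm (P.lev F i) i v) * (y v + s * u v - P.x0 v)
      = ∑ v ∈ F, (P.a i v - P.sm (P.lev F i) i v) * (y v - P.x0 v)
      + ∑ v ∈ F, s * ((P.a i v - P.sm (P.lev F i) i v) * u v) := by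
    rw [← Finset.sum_add_distrib]
    exact Finset.sum_congr rfl fun v _ => by ring
  rw [h3, h4]
  ring

/-- The objective along a line. -/
theorem f_line (F : Finset J) (y u : J → ℝ) (hu : ∀ j ∉ F, u j = 0) (s : ℝ) :
    P.f F (fun j => y j + s * u j) = ∑ τ ∈ P.S,
      exp (1 * (∑ i ∈ P.med F, P.b τ i (P.lev F i) *
        rp (P.Cc F i) (P.lam (P.lev F i)) (P.Bm F i y) (∑ v, P.am F i v * u v)
          (P.Yl (P.lev F i) * ∑ v, P.am F i v ^ 2 * (1 - y v ^ 2)) (P.Yl (P.lev F i) * ∑ v, P.am F i v ^ 2 * y v * u v)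
          (P.Yl (P.lev F i) * ∑ v, P.am F i v ^ 2 * u v ^ 2) s
        - (P.off F τ - log (P.wt τ))))
      + (∑ j, (1 - y j ^ 2) - 2 * s * (∑ j, y j * u j) - s ^ 2 * ∑ j, u j ^ 2) := by
  unfold f
  congr 1
  · refine Finset.sum_congr rfl fun τ hτ => ?_
    have hwt := P.hwt τ hτ
    have h0 : P.wt τ * exp (P.Th F τ (fun j => y j + s * u j))
        = exp (P.Th F τ (fun j => y j + s * u j) + log (P.wt τ)) := by
      rw [exp_add, exp_log hwt, mul_comm]
    rw [h0, P.Th_eq]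
    congr 1
    have h1 : ∑ i ∈ P.med F, P.b τ i (P.lev F i) *
        (P.w (P.lev F i) * P.φ (P.lev F i) F i (fun j => y j + s * u j))
        = ∑ i ∈ P.med F, P.b τ i (P.lev F i) *
        rp (P.Cc F i) (P.lam (P.lev F i)) (P.Bm F i y) (∑ v, P.am F i v * u v)
          (P.Yl (P.lev F i) * ∑ v, P.am F i v ^ 2 * (1 - y v ^ 2)) (P.Yl (P.lev F i) * ∑ v, P.am F i v ^ 2 * y v * u v)
          (P.Yl (P.lev F i) * ∑ v, P.am F i v ^ 2 * u v ^ 2) s := by
      refine Finset.sum_congr rfl fun i _ => ?_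
      congr 1
      have e1 := P.Bm_line F i y u hu s
      have e2 : ∑ v, P.am F i v ^ 2 * (1 - (y v + s * u v) ^ 2)
          = ∑ v, P.am F i v ^ 2 * (1 - y v ^ 2) - 2 * s * (∑ v, P.am F i v ^ 2 * y v * u v)
            - s ^ 2 * ∑ v, P.am F i v ^ 2 * u v ^ 2 := by
        rw [Finset.mul_sum, Finset.mul_sum, ← Finset.sum_sub_distrib, ← Finset.sum_sub_distrib]
        exact Finset.sum_congr rfl fun v _ => by ring
      have e3 : P.φ (P.lev F i) F i (fun j => y j + s * u j)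
          = exp (-(P.lam (P.lev F i) * P.Bd (P.lev F i) i))
            * cosh (P.lam (P.lev F i) * P.Bm F i (fun j => y j + s * u j))
            * exp (2 * P.lam (P.lev F i) * P.dr (P.lev F i) F i)
            * exp (4 * P.lam (P.lev F i) ^ 2 *
              (P.Yl (P.lev F i) * ∑ v, P.am F i v ^ 2 * (1 - (y v + s * u v) ^ 2))) := rfl
      rw [e3, e1, e2]
      unfold rp Cc
      have e4 : P.Yl (P.lev F i) * (∑ v, P.am F i v ^ 2 * (1 - y v ^ 2)
          - 2 * s * (∑ v, P.am F i v ^ 2 * y v * u v)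
            - s ^ 2 * ∑ v, P.am F i v ^ 2 * u v ^ 2)
          = P.Yl (P.lev F i) * ∑ v, P.am F i v ^ 2 * (1 - y v ^ 2)
            - 2 * s * (P.Yl (P.lev F i) * ∑ v, P.am F i v ^ 2 * y v * u v)
            - s ^ 2 * (P.Yl (P.lev F i) * ∑ v, P.am F i v ^ 2 * u v ^ 2) := by ring
      rw [e4]
      ring
    rw [h1]
    ring
  · rw [Finset.mul_sum, Finset.mul_sum, ← Finset.sum_sub_distrib, ← Finset.sum_sub_distrib]
    exact Finset.sum_congr rfl fun v _ => by ring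

theorem big_card (F F' : Finset J) [DecidablePred fun i => ∃ v ∈ F', P.a i v ≠ 0]
    (hcl : ∀ i, P.g0 < P.mass F i → (∃ v ∈ F', P.a i v ≠ 0) →
      ∀ v ∈ F, P.a i v ≠ 0 → v ∈ F') (hsub : F' ⊆ F) :
    10 * (((P.big F).filter (fun i => ∃ v ∈ F', P.a i v ≠ 0)).card : ℝ) ≤ F'.card := by
  classical
  have ht : 0 < P.t := by linarith [P.ht]
  have h0 : ∀ i ∈ (P.big F).filter (fun i => ∃ v ∈ F', P.a i v ≠ 0), 10 * P.t ≤ P.En F' i := by
    intro i hi
    rw [Finset.mem_filter] at hi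
    obtain ⟨h1, h1', h1''⟩ := P.mem_big.mp hi.1
    have h2 : P.En F' i = P.En F i := by
      unfold En
      refine Finset.sum_subset hsub fun v hv hv2 => ?_
      by_contra hne
      exact hv2 (hcl i h1' hi.2 v hv (fun h => hne (by rw [h, gg_zero])))
    rw [h2]
    have h3 : P.e 0 = 10 * P.t := by unfold e; simp
    linarith
  have h1 := Finset.card_nsmul_le_sum _ (fun i => P.En F' i) (10 * P.t) h0
  rw [nsmul_eq_mul] at h1
  have h2 : ∑ i ∈ (P.big F).filter (fun i => ∃ v ∈ F', P.a i v ≠ 0), P.En F' i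
      ≤ ∑ i, P.En F' i :=
    Finset.sum_le_sum_of_subset_of_nonneg (Finset.subset_univ _)
      (fun i _ _ => Finset.sum_nonneg fun _ _ => gg_nonneg _)
  have h3 : ∑ i, P.En F' i ≤ P.t * F'.card := by
    unfold En
    rw [Finset.sum_comm]
    calc ∑ j ∈ F', ∑ i, gg (P.a i j) ≤ ∑ j ∈ F', P.t := Finset.sum_le_sum fun j _ => P.col j
      _ = P.t * F'.card := by simp [mul_comm]
  have h4 : P.t * (10 * (((P.big F).filter (fun i => ∃ v ∈ F', P.a i v ≠ 0)).card : ℝ))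
      ≤ P.t * F'.card := by linarith
  exact le_of_mul_le_mul_left h4 ht

open Classical in
/-- If all coordinates of the component `F'` are alive at `y` and the potentials on it are small,
then `y` does not minimise the objective on the feasible region. -/
theorem no_min (F F' : Finset J) (x y : J → ℝ) (hyF : y ∈ P.Fs F F' x) (hyA : ∀ j ∈ F', |y j| < 1)
    (hn : 0 < F'.card) (hsub : F' ⊆ F)
    (hcl : ∀ i, P.g0 < P.mass F i → (∃ v ∈ F', P.a i v ≠ 0) →
      ∀ v ∈ F, P.a i v ≠ 0 → v ∈ F')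
    (hI0 : 20 * (P.I0.card : ℝ) ≤ F'.card)
    (hR : 100 * ∑ i ∈ P.R F F', P.W F y i / P.Yl (P.lev F i) ≤ 2 * (F'.card : ℝ))
    (hT : 20 * (((P.R F F').filter
      (fun i => P.V (P.lev F i) F i y = P.Bd (P.lev F i) i)).card : ℝ) ≤ F'.card)
    (hW : ∀ i ∈ P.R F F', ∃ τ ∈ P.S, 0 < P.b τ i (P.lev F i))
    (hmin : ∀ z ∈ P.Fs F F' x, P.f F y ≤ P.f F z) : False := by
  obtain ⟨hF1, hF2, hF3, hF4, hF5⟩ := hyF
  have ht : 0 < P.t := by linarith [P.ht]
  have hnR : (0 : ℝ) < F'.card := by exact_mod_cast hn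
  set Tt : Finset I := (P.R F F').filter
    (fun i => P.V (P.lev F i) F i y = P.Bd (P.lev F i) i) with hTt
  set Bg : Finset I := (P.big F).filter (fun i => ∃ v ∈ F', P.a i v ≠ 0) with hBg
  have hBig : 10 * (Bg.card : ℝ) ≤ F'.card := P.big_card F F' hcl hsub
  have hRmed : ∀ i ∈ P.R F F', i ∈ P.med F := fun i hi => (Finset.mem_filter.mp hi).1
  have hK : 1000 * (((P.I0 ∪ Bg).disjSum Tt).card : ℝ) ≤ 201 * F'.card := by
    rw [Finset.card_disjSum]
    have h1 : (P.I0 ∪ Bg).card ≤ P.I0.card + Bg.card := Finset.card_union_le _ _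
    have h2 : ((P.I0 ∪ Bg).card : ℝ) ≤ P.I0.card + Bg.card := by exact_mod_cast h1
    push_cast
    linarith
  have hω : ∀ τ ∈ P.S, 0 < P.wt τ * exp (P.Th F τ y) := fun τ hτ =>
    mul_pos (P.hwt τ hτ) (exp_pos _)
  obtain ⟨u, huF, huK, hu⟩ := exists_dir (fun i v => P.am F i v) P.S
    (fun τ i => P.b τ i (P.lev F i)) F'
    (P.R F F') (fun i => P.Yl (P.lev F i)) (fun i _ => P.hYl _) (fun τ hτ i _ => P.hb0 τ hτ i _) (fun τ hτ i _ => P.hb1 τ hτ i _)
    (P.W F y) (fun i => P.lam (P.lev F i)) (fun i => tanh (P.lam (P.lev F i) * P.Bm F i y))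
    (fun i _ => P.W_pos F y i) (fun i _ => P.lam_pos _) (fun i _ v => by
      have h1 := P.sm_abs (P.lev F i) i v
      have h2 := P.hθl (P.lev F i)
      have h3 := P.lam_pos (P.lev F i)
      refine le_trans ?_ h2
      exact mul_le_mul_of_nonneg_left h1 (mul_pos h3 (P.Y_pos _)).le)
    (fun i _ => (abs_tanh_lt_one _).le) (fun τ => P.wt τ * exp (P.Th F τ y)) hω
    1 one_pos y hF2 hn (fun i hi => by
      obtain ⟨v, hv, hv2⟩ := (Finset.mem_filter.mp hi).2
      exact Finset.sum_pos' (fun _ _ => abs_nonneg _) ⟨v, hv, abs_pos.mpr hv2⟩)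
    (fun i hi => by
      obtain ⟨τ, hτ, hτ2⟩ := hW i hi
      exact Finset.sum_pos' (fun τ' hτ' => mul_nonneg (hω τ' hτ').le (P.hb0 τ' hτ' i _))
        ⟨τ, hτ, mul_pos (hω τ hτ) hτ2⟩) hR
    ((P.I0 ∪ Bg).disjSum Tt) (Sum.elim (fun i => H167FK.Sys.lin (P.a i))
      (fun i => H167FK.Sys.lin (P.am F i))) hK
  have huK1 : ∀ i ∈ P.I0 ∪ Bg, ∑ v, P.a i v * u v = 0 := by
    intro i hi
    have := huK (Sum.inl i) (Finset.inl_mem_disjSum.mpr hi)
    simpa [H167FK.Sys.lin_apply] using this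
  have huK2 : ∀ i ∈ Tt, ∑ v, P.am F i v * u v = 0 := by
    intro i hi
    have := huK (Sum.inr i) (Finset.inr_mem_disjSum.mpr hi)
    simpa [H167FK.Sys.lin_apply] using this
  have huF0 : ∀ j ∉ F, u j = 0 := fun j hj => huF j (fun h => hj (hsub h))
  -- rows not meeting `F'` do not see `u`
  have hunmet : ∀ i, (¬ ∃ v ∈ F', P.am F i v ≠ 0) → ∀ c : J → ℝ,
      ∑ v, P.am F i v * c v * u v = 0 := by
    intro i hi c
    push Not at hi
    refine Finset.sum_eq_zero fun v _ => ?_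
    by_cases hv : v ∈ F'
    · rw [hi v hv]; ring
    · rw [huF v hv]; ring
  have hun0 : ∀ i, (¬ ∃ v ∈ F', P.a i v ≠ 0) → ∑ v, P.a i v * u v = 0 := by
    intro i hi
    push Not at hi
    refine Finset.sum_eq_zero fun v _ => ?_
    by_cases hv : v ∈ F'
    · rw [hi v hv]; ring
    · rw [huF v hv]; ring
  have hun1 : ∀ i, (¬ ∃ v ∈ F', P.am F i v ≠ 0) → ∑ v, P.am F i v * u v = 0 := by
    intro i hi
    have := hunmet i hi (fun _ => 1)
    simpa using this
  have hun2 : ∀ i, (¬ ∃ v ∈ F', P.am F i v ≠ 0) → ∑ v, P.am F i v ^ 2 * y v * u v = 0 := by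
    intro i hi
    have := hunmet i hi (fun v => P.am F i v * y v)
    refine Eq.trans (Finset.sum_congr rfl fun v _ => ?_) this
    ring
  have hun3 : ∀ i, (¬ ∃ v ∈ F', P.am F i v ≠ 0) → ∑ v, P.am F i v ^ 2 * u v ^ 2 = 0 := by
    intro i hi
    have := hunmet i hi (fun v => P.am F i v * u v)
    refine Eq.trans (Finset.sum_congr rfl fun v _ => ?_) this
    ring
  -- feasibility for small `s`
  have ev1 : ∀ᶠ s : ℝ in 𝓝 0, ∀ j ∈ F', |y j + s * u j| < 1 := by
    rw [Filter.eventually_all_finset]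
    intro j hj
    have c1 : Continuous (fun s : ℝ => |y j + s * u j|) := by fun_prop
    have h1 := c1.tendsto 0
    simp only [zero_mul, add_zero] at h1
    exact h1.eventually_lt_const (hyA j hj)
  have ev2 : ∀ᶠ s : ℝ in 𝓝 0, ∀ i ∈ (P.med F).filter
      (fun i => P.V (P.lev F i) F i y ≠ P.Bd (P.lev F i) i),
      |P.Bm F i y + s * ∑ v, P.am F i v * u v| + 2 * P.dr (P.lev F i) F i
        < P.Bd (P.lev F i) i := by
    rw [Filter.eventually_all_finset]
    intro i hi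
    rw [Finset.mem_filter] at hi
    have hlt : P.V (P.lev F i) F i y < P.Bd (P.lev F i) i := lt_of_le_of_ne (hF5 i hi.1) hi.2
    have c1 : Continuous (fun s : ℝ => |P.Bm F i y + s * ∑ v, P.am F i v * u v|
        + 2 * P.dr (P.lev F i) F i) := by
      fun_prop
    have h1 := c1.tendsto 0
    simp only [zero_mul, add_zero] at h1
    exact h1.eventually_lt_const hlt
  have hloc : IsLocalMin (fun s : ℝ => P.f F (fun j => y j + s * u j)) 0 := by
    have hy0 : P.f F (fun j => y j + 0 * u j) = P.f F y := by simp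
    filter_upwards [ev1, ev2] with s hs1 hs2
    rw [hy0]
    apply hmin
    have linA : ∀ i, P.A i (fun j => y j + s * u j) = P.A i y + s * ∑ v, P.a i v * u v := by
      intro i
      unfold A
      rw [Finset.mul_sum, ← Finset.sum_add_distrib]
      exact Finset.sum_congr rfl fun v _ => by ring
    have linV : ∀ i, P.V (P.lev F i) F i (fun j => y j + s * u j)
        = |P.Bm F i y + s * ∑ v, P.am F i v * u v| + 2 * P.dr (P.lev F i) F i := by
      intro i
      rw [← P.Bm_line F i y u huF0 s]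
      rfl
    have hV0 : ∀ i, P.V (P.lev F i) F i y = |P.Bm F i y| + 2 * P.dr (P.lev F i) F i :=
      fun i => rfl
    refine ⟨?_, ?_, ?_, ?_, ?_⟩
    · intro j hj
      simp only [huF j hj, mul_zero, add_zero, hF1 j hj]
    · intro j
      by_cases hj : j ∈ F'
      · exact (hs1 j hj).le
      · simp only [huF j hj, mul_zero, add_zero]
        exact hF2 j
    · intro i hi
      rw [linA, hF3 i hi, huK1 i (Finset.mem_union_left _ hi)]; simp
    · intro i hi
      rw [linA, hF4 i hi]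
      by_cases hm : ∃ v ∈ F', P.a i v ≠ 0
      · rw [huK1 i (Finset.mem_union_right _ (Finset.mem_filter.mpr ⟨hi, hm⟩))]; simp
      · rw [hun0 i hm]; simp
    · intro i hi
      rw [linV]
      by_cases htight : P.V (P.lev F i) F i y = P.Bd (P.lev F i) i
      · by_cases hm : ∃ v ∈ F', P.am F i v ≠ 0
        · rw [huK2 i (Finset.mem_filter.mpr
            ⟨Finset.mem_filter.mpr ⟨hi, hm⟩, htight⟩), mul_zero, add_zero, ← hV0, htight]
        · rw [hun1 i hm, mul_zero, add_zero, ← hV0, htight]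
      · exact (hs2 i (Finset.mem_filter.mpr ⟨hi, htight⟩)).le
  simp only [P.f_line F y u huF0] at hloc
  have key := calc_main (P.med F) P.S (fun i τ => P.b τ i (P.lev F i)) _ _ _ _ _ _ _ _ _ _ _ _ hloc
  -- identify the terms
  have hC0 : ∀ i, 0 < P.Cc F i := fun i => by
    unfold Cc
    exact mul_pos (mul_pos (P.hw _) (exp_pos _)) (exp_pos _)
  have hWC : ∀ i, P.W F y i = P.Cc F i * cosh (P.lam (P.lev F i) * P.Bm F i y)
      * exp (4 * P.lam (P.lev F i) ^ 2 * (P.Yl (P.lev F i) * ∑ v, P.am F i v ^ 2 * (1 - y v ^ 2))) := by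
    intro i
    simp only [W, φ, Cc, Bm, am]; ring
  have hexp : ∀ τ ∈ P.S, exp (1 * (∑ i ∈ P.med F, P.b τ i (P.lev F i) *
        rp (P.Cc F i) (P.lam (P.lev F i)) (P.Bm F i y) (∑ v, P.am F i v * u v)
          (P.Yl (P.lev F i) * ∑ v, P.am F i v ^ 2 * (1 - y v ^ 2)) (P.Yl (P.lev F i) * ∑ v, P.am F i v ^ 2 * y v * u v)
          (P.Yl (P.lev F i) * ∑ v, P.am F i v ^ 2 * u v ^ 2) 0
        - (P.off F τ - log (P.wt τ)))) = P.wt τ * exp (P.Th F τ y) := by
    intro τ hτ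
    have hwt := P.hwt τ hτ
    have h0 : P.wt τ * exp (P.Th F τ y) = exp (P.Th F τ y + log (P.wt τ)) := by
      rw [exp_add, exp_log hwt, mul_comm]
    rw [h0, P.Th_eq]
    congr 1
    have h1 : ∑ i ∈ P.med F, P.b τ i (P.lev F i) *
        (P.w (P.lev F i) * P.φ (P.lev F i) F i y)
        = ∑ i ∈ P.med F, P.b τ i (P.lev F i) *
        rp (P.Cc F i) (P.lam (P.lev F i)) (P.Bm F i y) (∑ v, P.am F i v * u v)
          (P.Yl (P.lev F i) * ∑ v, P.am F i v ^ 2 * (1 - y v ^ 2)) (P.Yl (P.lev F i) * ∑ v, P.am F i v ^ 2 * y v * u v)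
          (P.Yl (P.lev F i) * ∑ v, P.am F i v ^ 2 * u v ^ 2) 0 := by
      refine Finset.sum_congr rfl fun i _ => ?_
      congr 1
      have h2 : P.w (P.lev F i) * P.φ (P.lev F i) F i y = P.W F y i := rfl
      rw [h2, hWC]
      simp only [rp, zero_mul, add_zero, mul_zero, sub_zero, ne_eq, OfNat.ofNat_ne_zero,
        not_false_eq_true, zero_pow]
    rw [h1]
    ring
  have hrp1 : ∀ i, rp1 (P.Cc F i) (P.lam (P.lev F i)) (P.Bm F i y) (∑ v, P.am F i v * u v)
          (P.Yl (P.lev F i) * ∑ v, P.am F i v ^ 2 * (1 - y v ^ 2)) (P.Yl (P.lev F i) * ∑ v, P.am F i v ^ 2 * y v * u v)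
          (P.Yl (P.lev F i) * ∑ v, P.am F i v ^ 2 * u v ^ 2) 0
        = P.W F y i * P.lam (P.lev F i) *
          (tanh (P.lam (P.lev F i) * P.Bm F i y) * (∑ v, P.am F i v * u v)
            - 8 * P.lam (P.lev F i) * (P.Yl (P.lev F i) * ∑ v, P.am F i v ^ 2 * y v * u v)) := by
    intro i
    have hch := (cosh_pos (P.lam (P.lev F i) * P.Bm F i y)).ne'
    rw [hWC, tanh_eq_sinh_div_cosh]
    simp only [rp1, zero_mul, add_zero, mul_zero, sub_zero, ne_eq, OfNat.ofNat_ne_zero,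
      not_false_eq_true, zero_pow]
    field_simp
  have hsecond : ∀ i, P.Cc F i * exp (4 * P.lam (P.lev F i) ^ 2 *
      (P.Yl (P.lev F i) * ∑ v, P.am F i v ^ 2 * (1 - y v ^ 2))) *
      ((P.lam (P.lev F i) ^ 2 * (∑ v, P.am F i v * u v) ^ 2
          - 8 * P.lam (P.lev F i) ^ 2 * (P.Yl (P.lev F i) * ∑ v, P.am F i v ^ 2 * u v ^ 2)
          + 64 * P.lam (P.lev F i) ^ 4 * (P.Yl (P.lev F i) * ∑ v, P.am F i v ^ 2 * y v * u v) ^ 2)
        * cosh (P.lam (P.lev F i) * P.Bm F i y)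
        - 16 * P.lam (P.lev F i) ^ 3 * (∑ v, P.am F i v * u v)
          * (P.Yl (P.lev F i) * ∑ v, P.am F i v ^ 2 * y v * u v)
          * sinh (P.lam (P.lev F i) * P.Bm F i y))
      ≤ P.W F y i * (P.lam (P.lev F i) ^ 2 * (2 * (∑ v, P.am F i v * u v) ^ 2
          + 128 * P.lam (P.lev F i) ^ 2 * (P.Yl (P.lev F i) * ∑ v, P.am F i v ^ 2 * y v * u v) ^ 2
          - 8 * (P.Yl (P.lev F i) * ∑ v, P.am F i v ^ 2 * u v ^ 2))) := by
    intro i
    rw [hWC]
    set l := P.lam (P.lev F i)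
    set β := ∑ v, P.am F i v * u v
    set γ := P.Yl (P.lev F i) * ∑ v, P.am F i v ^ 2 * y v * u v
    set q := P.Yl (P.lev F i) * ∑ v, P.am F i v ^ 2 * u v ^ 2
    set X := l * P.Bm F i y
    set E := exp (4 * l ^ 2 * (P.Yl (P.lev F i) * ∑ v, P.am F i v ^ 2 * (1 - y v ^ 2)))
    have hE : 0 < E := exp_pos _
    have hsc : |sinh X| ≤ cosh X := by
      rw [abs_le]
      constructor
      · have := cosh_add_sinh X
        have := exp_pos X
        linarith
      · exact (sinh_lt_cosh X).le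
    have hcross : -(16 * l ^ 3 * β * γ * sinh X) ≤ (l ^ 2 * β ^ 2 + 64 * l ^ 4 * γ ^ 2) * cosh X := by
      calc -(16 * l ^ 3 * β * γ * sinh X) ≤ |16 * l ^ 3 * β * γ * sinh X| := neg_le_abs _
        _ = |2 * (l * β) * (8 * l ^ 2 * γ)| * |sinh X| := by
            rw [← abs_mul]; congr 1; ring
        _ ≤ ((l * β) ^ 2 + (8 * l ^ 2 * γ) ^ 2) * cosh X := by
            apply mul_le_mul _ hsc (abs_nonneg _) (by positivity)
            rw [abs_le]
            constructor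
            · nlinarith [sq_nonneg (l * β + 8 * l ^ 2 * γ)]
            · nlinarith [sq_nonneg (l * β - 8 * l ^ 2 * γ)]
        _ = _ := by ring
    have hCE : 0 < P.Cc F i * E := mul_pos (hC0 i) hE
    calc P.Cc F i * E * ((l ^ 2 * β ^ 2 - 8 * l ^ 2 * q + 64 * l ^ 4 * γ ^ 2) * cosh X
          - 16 * l ^ 3 * β * γ * sinh X)
        ≤ P.Cc F i * E * ((l ^ 2 * β ^ 2 - 8 * l ^ 2 * q + 64 * l ^ 4 * γ ^ 2) * cosh X
          + (l ^ 2 * β ^ 2 + 64 * l ^ 4 * γ ^ 2) * cosh X) := by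
          apply mul_le_mul_of_nonneg_left _ hCE.le
          linarith
      _ = _ := by ring
  simp only [hrp1, one_mul] at key
  -- restrict the sums to rows meeting `F'`
  have hrestr : ∀ h : I → ℝ, (∀ i ∈ P.med F, (¬ ∃ v ∈ F', P.am F i v ≠ 0) → h i = 0) →
      ∑ i ∈ P.med F, h i = ∑ i ∈ P.R F F', h i := by
    intro h hh
    unfold R
    rw [Finset.sum_filter]
    refine Finset.sum_congr rfl fun i hi => ?_
    by_cases hm : ∃ v ∈ F', P.am F i v ≠ 0
    · rw [if_pos hm]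
    · rw [if_neg hm, hh i hi hm]
  have hfinal : ∑ τ ∈ P.S, exp (∑ i ∈ P.med F, P.b τ i (P.lev F i) *
        rp (P.Cc F i) (P.lam (P.lev F i)) (P.Bm F i y) (∑ v, P.am F i v * u v)
          (P.Yl (P.lev F i) * ∑ v, P.am F i v ^ 2 * (1 - y v ^ 2)) (P.Yl (P.lev F i) * ∑ v, P.am F i v ^ 2 * y v * u v)
          (P.Yl (P.lev F i) * ∑ v, P.am F i v ^ 2 * u v ^ 2) 0
        - (P.off F τ - log (P.wt τ))) *
      ((∑ i ∈ P.med F, P.b τ i (P.lev F i) * (P.W F y i * P.lam (P.lev F i) *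
          (tanh (P.lam (P.lev F i) * P.Bm F i y) * (∑ v, P.am F i v * u v)
            - 8 * P.lam (P.lev F i) * (P.Yl (P.lev F i) * ∑ v, P.am F i v ^ 2 * y v * u v)))) ^ 2
        + ∑ i ∈ P.med F, P.b τ i (P.lev F i) * (P.Cc F i *
          exp (4 * P.lam (P.lev F i) ^ 2 * (P.Yl (P.lev F i) * ∑ v, P.am F i v ^ 2 * (1 - y v ^ 2))) *
      ((P.lam (P.lev F i) ^ 2 * (∑ v, P.am F i v * u v) ^ 2
          - 8 * P.lam (P.lev F i) ^ 2 * (P.Yl (P.lev F i) * ∑ v, P.am F i v ^ 2 * u v ^ 2)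
          + 64 * P.lam (P.lev F i) ^ 4 * (P.Yl (P.lev F i) * ∑ v, P.am F i v ^ 2 * y v * u v) ^ 2)
        * cosh (P.lam (P.lev F i) * P.Bm F i y)
        - 16 * P.lam (P.lev F i) ^ 3 * (∑ v, P.am F i v * u v)
          * (P.Yl (P.lev F i) * ∑ v, P.am F i v ^ 2 * y v * u v)
          * sinh (P.lam (P.lev F i) * P.Bm F i y))))
      ≤ ∑ τ ∈ P.S, P.wt τ * exp (P.Th F τ y) * (∑ i ∈ P.R F F', P.b τ i (P.lev F i) *
          (P.W F y i * P.lam (P.lev F i) *
          (tanh (P.lam (P.lev F i) * P.Bm F i y) * (∑ v, P.am F i v * u v)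
            - 8 * P.lam (P.lev F i) * (P.Yl (P.lev F i) * ∑ v, P.am F i v ^ 2 * y v * u v)))) ^ 2
      + ∑ τ ∈ P.S, P.wt τ * exp (P.Th F τ y) * ∑ i ∈ P.R F F', P.b τ i (P.lev F i) *
          (P.W F y i * (P.lam (P.lev F i) ^ 2 * (2 * (∑ v, P.am F i v * u v) ^ 2
          + 128 * P.lam (P.lev F i) ^ 2 * (P.Yl (P.lev F i) * ∑ v, P.am F i v ^ 2 * y v * u v) ^ 2
          - 8 * (P.Yl (P.lev F i) * ∑ v, P.am F i v ^ 2 * u v ^ 2)))) := by
    rw [← Finset.sum_add_distrib]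
    refine Finset.sum_le_sum fun τ hτ => ?_
    have h0 := hexp τ hτ
    rw [one_mul] at h0
    rw [h0]
    have hωτ := hω τ hτ
    have e1 : ∑ i ∈ P.med F, P.b τ i (P.lev F i) * (P.W F y i * P.lam (P.lev F i) *
          (tanh (P.lam (P.lev F i) * P.Bm F i y) * (∑ v, P.am F i v * u v)
            - 8 * P.lam (P.lev F i) * (P.Yl (P.lev F i) * ∑ v, P.am F i v ^ 2 * y v * u v)))
        = ∑ i ∈ P.R F F', P.b τ i (P.lev F i) * (P.W F y i * P.lam (P.lev F i) *
          (tanh (P.lam (P.lev F i) * P.Bm F i y) * (∑ v, P.am F i v * u v)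
            - 8 * P.lam (P.lev F i) * (P.Yl (P.lev F i) * ∑ v, P.am F i v ^ 2 * y v * u v))) := by
      refine hrestr _ fun i _ hm => ?_
      rw [hun1 i hm, hun2 i hm]; ring
    have e2 : ∑ i ∈ P.med F, P.b τ i (P.lev F i) *
          (P.W F y i * (P.lam (P.lev F i) ^ 2 * (2 * (∑ v, P.am F i v * u v) ^ 2
          + 128 * P.lam (P.lev F i) ^ 2 * (P.Yl (P.lev F i) * ∑ v, P.am F i v ^ 2 * y v * u v) ^ 2
          - 8 * (P.Yl (P.lev F i) * ∑ v, P.am F i v ^ 2 * u v ^ 2))))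
        = ∑ i ∈ P.R F F', P.b τ i (P.lev F i) *
          (P.W F y i * (P.lam (P.lev F i) ^ 2 * (2 * (∑ v, P.am F i v * u v) ^ 2
          + 128 * P.lam (P.lev F i) ^ 2 * (P.Yl (P.lev F i) * ∑ v, P.am F i v ^ 2 * y v * u v) ^ 2
          - 8 * (P.Yl (P.lev F i) * ∑ v, P.am F i v ^ 2 * u v ^ 2)))) := by
      refine hrestr _ fun i _ hm => ?_
      rw [hun1 i hm, hun2 i hm, hun3 i hm]; ring
    rw [e1, ← e2]
    have h1 : ∑ i ∈ P.med F, P.b τ i (P.lev F i) * (P.Cc F i *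
          exp (4 * P.lam (P.lev F i) ^ 2 * (P.Yl (P.lev F i) * ∑ v, P.am F i v ^ 2 * (1 - y v ^ 2))) *
      ((P.lam (P.lev F i) ^ 2 * (∑ v, P.am F i v * u v) ^ 2
          - 8 * P.lam (P.lev F i) ^ 2 * (P.Yl (P.lev F i) * ∑ v, P.am F i v ^ 2 * u v ^ 2)
          + 64 * P.lam (P.lev F i) ^ 4 * (P.Yl (P.lev F i) * ∑ v, P.am F i v ^ 2 * y v * u v) ^ 2)
        * cosh (P.lam (P.lev F i) * P.Bm F i y)
        - 16 * P.lam (P.lev F i) ^ 3 * (∑ v, P.am F i v * u v)
          * (P.Yl (P.lev F i) * ∑ v, P.am F i v ^ 2 * y v * u v)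
          * sinh (P.lam (P.lev F i) * P.Bm F i y)))
        ≤ ∑ i ∈ P.med F, P.b τ i (P.lev F i) *
          (P.W F y i * (P.lam (P.lev F i) ^ 2 * (2 * (∑ v, P.am F i v * u v) ^ 2
          + 128 * P.lam (P.lev F i) ^ 2 * (P.Yl (P.lev F i) * ∑ v, P.am F i v ^ 2 * y v * u v) ^ 2
          - 8 * (P.Yl (P.lev F i) * ∑ v, P.am F i v ^ 2 * u v ^ 2)))) :=
      Finset.sum_le_sum fun i _ => mul_le_mul_of_nonneg_left (hsecond i) (P.hb0 τ hτ i _)
    have h2 := mul_le_mul_of_nonneg_left h1 hωτ.le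
    linarith
  linarith

end Sys

end Q156G
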