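import Pool.Agent.Q156.G.Blk
import Pool.Agent.H167R2.FKWeight

/-!
# The weighted statement with level dependent coupling
-/

namespace Q156G

open Finset Real H167FK

variable {I : Type*} [Fintype I] {n : ℕ}

/-- The cost bound. -/
noncomputable def cost (t M : ℝ) : ℝ :=
  540 * t + 753 * Real.sqrt (960 * M) * (1 + Real.log t) ^ (3 / 2 : ℝ)

theorem cost_nonneg {t M : ℝ} (ht : 1 ≤ t) : 0 ≤ cost t M := by
  have : 0 ≤ Real.log t := Real.log_nonneg ht
  unfold cost
  positivity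

theorem sum_le_six (s : ℝ) (hs : 2 ≤ s) (t : ℕ → ℝ) (h0 : ∀ k, 0 ≤ t k)
    (h : ∀ k, s * t k ≤ t (k + 1)) (m : ℕ) :
    ∑ k ∈ range m, (if t k ≤ s ^ 3 then min 1 (s * t k) else 0) ≤ 6 := by
  induction m with
  | zero => simp
  | succ m ih =>
    by_cases hm : t m ≤ s ^ 3
    · have h1 : ∑ k ∈ range (m + 1), (if t k ≤ s ^ 3 then min 1 (s * t k) else 0)
          ≤ ∑ k ∈ range (m + 1), min 1 (s * t k) := by
        refine Finset.sum_le_sum fun k _ => ?_
        have h2 : 0 ≤ s * t k := mul_nonneg (by linarith) (h0 k)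
        split_ifs
        · exact le_rfl
        · exact le_min zero_le_one h2
      have h2 := sum_min_le s hs (fun k => s * t k)
        (fun k => mul_nonneg (by linarith) (h0 k))
        (fun k => mul_le_mul_of_nonneg_left (h k) (by linarith)) 4 m (by
          calc s * t m ≤ s * s ^ 3 := mul_le_mul_of_nonneg_left hm (by linarith)
            _ = s ^ 4 := by ring)
      have h3 : ((4 : ℕ) : ℝ) + 2 = 6 := by norm_num
      rw [h3] at h2
      exact h1.trans h2
    · rw [Finset.sum_range_succ, if_neg hm, add_zero]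
      exact ih

/-- One block. -/
theorem block_k (a : I → Fin n → ℝ) (t : ℝ) (ht : 1 ≤ t)
    (hcolt : ∀ j, ∑ i, gg (a i j) ≤ t) (s : ℕ) (hs3 : 3 ≤ s)
    (Y : ℝ) (hY : 1 ≤ Y) (hsY : 960 * Y ≤ (s : ℝ) ^ 4) (ε : ℝ)
    (h1 : 16 ≤ ε * s) (h2 : 8 * (s : ℝ) ^ 8 * exp (-Y) ≤ ε) (k : ℕ) :
    ∃ x : Fin n → ℝ, (∀ j, |x j| ≤ 1) ∧
      (∀ i, |∑ j ∈ B n (s ^ 8) k, a i j * x j| ≤ cost t Y *
        (if rt (fun i j => Real.sqrt (gg (a i j) / t)) (s ^ 8) (s ^ 4) i k ≤ (s : ℝ) ^ 3 then
          min 1 (s * rt (fun i j => Real.sqrt (gg (a i j) / t)) (s ^ 8) (s ^ 4) i k) else 0)) ∧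
      (((B n (s ^ 8) k).filter (fun j => |x j| < 1)).card : ℝ)
        ≤ ((s ^ 8 : ℕ) : ℝ) ^ k * (ε / 2) := by
  classical
  have hs : 2 ≤ s := by omega
  set A : I → Fin n → ℝ := fun i j => Real.sqrt (gg (a i j) / t) with hA
  have hAsq : ∀ i j, gg (a i j) = t * A i j ^ 2 := by
    intro i j
    simp only [hA]
    rw [Real.sq_sqrt (div_nonneg (gg_nonneg _) (by linarith))]
    field_simp
  have hcol : ∀ j, ∑ i, A i j ^ 2 ≤ 1 := by
    intro j
    have h3 := hcolt j
    simp only [hAsq] at h3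
    rw [← Finset.mul_sum] at h3
    have h4 : t * ∑ i, A i j ^ 2 ≤ t * 1 := by linarith
    exact le_of_mul_le_mul_left h4 (by linarith)
  set M : ℕ := s ^ 8 with hM
  set σ : ℕ := s ^ 4 with hσdef
  have hs4 : 2 ≤ s ^ 4 := by
    calc 2 ≤ s := hs
      _ ≤ s ^ 4 := Nat.le_self_pow (by norm_num) s
  have hM2σ : 2 * σ ≤ M := by
    have : s ^ 8 = s ^ 4 * s ^ 4 := by ring
    rw [hM, this, hσdef]
    exact Nat.mul_le_mul_right _ hs4
  have hM2 : 2 ≤ M := by omega
  have hMR : (M : ℝ) = (s : ℝ) ^ 8 := by rw [hM]; push_cast; ring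
  have hsR : (2 : ℝ) ≤ s := by exact_mod_cast hs
  set T : I → ℝ := fun i => rt A M σ i k with hT
  have ht0 : ∀ i, 0 ≤ T i := fun i => rt_nonneg _ _ _ _ _
  have ht4 : ∀ i, T i ^ 4 = r A M σ i k := fun i => rt_pow _ _ _ _ _
  -- masses on the block
  have hmass : ∀ i, ∑ j : B n M k, gg (a i j) ≤ t * T i ^ 4 := by
    intro i
    rw [ht4, Finset.sum_coe_sort (B n M k) (fun j => gg (a i j))]
    simp only [hAsq]
    rw [← Finset.mul_sum]
    exact mul_le_mul_of_nonneg_left (block_le_r A M σ i k) (by linarith)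
  let P : Blk I (B n M k) :=
    { a := fun i j => a i j
      I0 := Finset.univ.filter (fun i => (s : ℝ) ^ 3 < T i)
      I1 := Finset.univ.filter (fun i => 0 < T i ∧ T i ≤ (s : ℝ) ^ 3)
      t := t
      ht := ht
      M := Y
      hM := hY
      col := fun j => hcolt j
      s := s
      hs := by linarith
      hsM := hsY
      τ := fun i => min 1 (s * T i)
      τ_pos := by
        intro i hi
        rw [Finset.mem_filter] at hi
        have hs0 : (0 : ℝ) < s := by linarith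
        exact lt_min zero_lt_one (mul_pos hs0 hi.2.1)
      τ_le := fun i _ => min_le_left _ _
      τ_mass := by
        intro i _
        have hs0 : (0 : ℝ) < s := by linarith
        rcases le_total 1 (s * T i) with h | h
        · left; exact min_eq_left h
        · right
          rw [min_eq_right h, mul_div_cancel_left₀ _ hs0.ne']
          exact hmass i }
  obtain ⟨x, hx1, hx0, hxI1, hxal⟩ := P.block
  let X : Fin n → ℝ := fun j => if h : j ∈ B n M k then x ⟨j, h⟩ else 1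
  have hXsum : ∀ i, ∑ j ∈ B n M k, a i j * X j = ∑ j : B n M k, a i j * x j := by
    intro i
    rw [← Finset.sum_coe_sort (B n M k) (fun j => a i j * X j)]
    refine Finset.sum_congr rfl fun j _ => ?_
    simp [X, j.2]
  refine ⟨X, ?_, ?_, ?_⟩
  · intro j
    by_cases h : j ∈ B n M k
    · simp only [X, h, dif_pos]; exact hx1 _
    · simp [X, h]
  · intro i
    rw [hXsum]
    by_cases h : T i ≤ (s : ℝ) ^ 3
    · rw [if_pos h]
      rcases (ht0 i).lt_or_eq with hpos | hzero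
      · exact hxI1 i (Finset.mem_filter.mpr ⟨Finset.mem_univ i, hpos, h⟩)
      · -- zero row
        have hz : ∀ j : B n M k, a i j = 0 := by
          intro j
          have h3 := hmass i
          rw [← hzero] at h3
          have h4 := Finset.single_le_sum (f := fun j : B n M k => gg (a i j))
            (fun j _ => gg_nonneg _) (Finset.mem_univ j)
          have h5 : gg (a i j) ≤ 0 := by
            refine h4.trans (h3.trans ?_)
            norm_num
          exact gg_eq_zero h5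
        have h7 : ∑ j : B n M k, a i j * x j = 0 :=
          Finset.sum_eq_zero fun j _ => by rw [hz j, zero_mul]
        rw [h7, abs_zero]
        have hs0 : (0 : ℝ) ≤ s := by linarith
        have h8 : 0 ≤ min 1 ((s : ℝ) * rt A M σ i k) :=
          le_min zero_le_one (mul_nonneg hs0 (ht0 i))
        exact mul_nonneg (cost_nonneg ht) h8
    · rw [if_neg h]
      push Not at h
      have h7 : ∑ j : B n M k, a i j * x j = 0 :=
        hx0 i (Finset.mem_filter.mpr ⟨Finset.mem_univ i, h⟩)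
      rw [h7]; simp
  · -- counting
    have hcard : ((B n M k).filter (fun j => |X j| < 1)).card = (H167FK.Sys.alive x).card := by
      rw [← Finset.card_map (Function.Embedding.subtype (fun j => j ∈ B n M k))]
      congr 1
      ext j
      simp only [Finset.mem_filter, Finset.mem_map, H167FK.Sys.alive, Finset.mem_univ, true_and,
        Function.Embedding.coe_subtype]
      constructor
      · rintro ⟨hj, hj2⟩
        refine ⟨⟨j, hj⟩, ?_, rfl⟩
        simpa [X, hj] using hj2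
      · rintro ⟨⟨j', hj'⟩, hj2, rfl⟩
        refine ⟨hj', ?_⟩
        simpa [X, hj'] using hj2
    rw [hcard]
    refine hxal.trans ?_
    have hrsum := sum_r_le A hcol M σ hM2 hM2σ k
    have hcardB : ((Fintype.card (B n M k) : ℕ) : ℝ) ≤ (M : ℝ) ^ (k + 1) := by
      rw [Fintype.card_coe]
      exact_mod_cast card_B_le (n := n) M k hM2
    have hI0 : (P.I0.card : ℝ) * (s : ℝ) ^ 12 ≤ 2 * (M : ℝ) ^ (k + 1) := by
      have h3 := Finset.card_nsmul_le_sum P.I0 (fun i => r A M σ i k) ((s : ℝ) ^ 12) (by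
        intro i hi
        have hi' := (Finset.mem_filter.mp hi).2
        rw [← ht4]
        calc (s : ℝ) ^ 12 = ((s : ℝ) ^ 3) ^ 4 := by ring
          _ ≤ T i ^ 4 := by gcongr)
      rw [nsmul_eq_mul] at h3
      refine h3.trans (le_trans ?_ hrsum)
      exact Finset.sum_le_sum_of_subset_of_nonneg (Finset.subset_univ _)
        (fun i _ _ => r_nonneg _ _ _ _ _)
    have hMk : (0 : ℝ) < (M : ℝ) ^ k := by
      have : (0 : ℝ) < M := by exact_mod_cast (by omega : 0 < M)
      positivity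
    have hMk1 : (M : ℝ) ^ (k + 1) = (M : ℝ) ^ k * (s : ℝ) ^ 8 := by rw [pow_succ, hMR]
    rw [hMk1] at hI0 hcardB
    have hs0 : (0 : ℝ) < s := by linarith
    -- number of frozen rows
    have hs3R : (3 : ℝ) ≤ s := by exact_mod_cast hs3
    have hI0' : 20 * (P.I0.card : ℝ) ≤ (M : ℝ) ^ k * (ε / 4) := by
      have h3 : (20 * (P.I0.card : ℝ)) * (s : ℝ) ^ 12 ≤ ((M : ℝ) ^ k * (ε / 4)) * (s : ℝ) ^ 12 := by
        have h4 : 160 ≤ ε * (s : ℝ) ^ 4 := by
          have h5 : (27 : ℝ) ≤ (s : ℝ) ^ 3 := by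
            calc (27 : ℝ) = 3 ^ 3 := by norm_num
              _ ≤ (s : ℝ) ^ 3 := pow_le_pow_left₀ (by norm_num) hs3R 3
          calc (160 : ℝ) ≤ 16 * 27 := by norm_num
            _ ≤ (ε * s) * (s : ℝ) ^ 3 := mul_le_mul h1 h5 (by norm_num) (by linarith)
            _ = ε * (s : ℝ) ^ 4 := by ring
        have h5 : 0 < (M : ℝ) ^ k * (s : ℝ) ^ 8 := by positivity
        calc 20 * (P.I0.card : ℝ) * (s : ℝ) ^ 12 = 20 * ((P.I0.card : ℝ) * (s : ℝ) ^ 12) := by ring
          _ ≤ 20 * (2 * ((M : ℝ) ^ k * (s : ℝ) ^ 8)) := mul_le_mul_of_nonneg_left hI0 (by norm_num)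
          _ = ((M : ℝ) ^ k * (s : ℝ) ^ 8) * (160 / 4) := by ring
          _ ≤ ((M : ℝ) ^ k * (s : ℝ) ^ 8) * ((ε * (s : ℝ) ^ 4) / 4) := by
              apply mul_le_mul_of_nonneg_left _ h5.le
              linarith
          _ = _ := by ring
      exact le_of_mul_le_mul_right h3 (by positivity)
    have hexp : 0 < exp (-Y) := exp_pos _
    have hlast : 2 * (Fintype.card (B n M k) : ℝ) * exp (-P.M)
        ≤ (M : ℝ) ^ k * (ε / 4) := by
      calc 2 * (Fintype.card (B n M k) : ℝ) * exp (-P.M)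
          ≤ 2 * ((M : ℝ) ^ k * (s : ℝ) ^ 8) * exp (-Y) := by
            apply mul_le_mul_of_nonneg_right _ hexp.le
            linarith
        _ = (M : ℝ) ^ k * ((8 * (s : ℝ) ^ 8 * exp (-Y)) / 4) := by ring
        _ ≤ (M : ℝ) ^ k * (ε / 4) := by
            apply mul_le_mul_of_nonneg_left _ hMk.le
            linarith
    linarith

/-- Weighted statement for sorted weights, with abstract parameters. -/
theorem weighted_aux (a : I → Fin n → ℝ) (t : ℝ) (ht : 1 ≤ t)
    (hcol : ∀ j, ∑ i, gg (a i j) ≤ t) (s : ℕ) (hs3 : 3 ≤ s)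
    (Y : ℝ) (hY : 1 ≤ Y) (hsY : 960 * Y ≤ (s : ℝ) ^ 4) (ε : ℝ) (hε0 : 0 < ε) (hε1 : ε ≤ 1)
    (h1 : 16 ≤ ε * s) (h2 : 8 * (s : ℝ) ^ 8 * exp (-Y) ≤ ε)
    (p : Fin n → ℝ) (hp0 : ∀ j, 0 ≤ p j) (hp : Antitone p) :
    ∃ x : Fin n → ℝ, (∀ j, |x j| ≤ 1) ∧ (∀ i, |∑ j, a i j * x j| ≤ 6 * cost t Y) ∧
      ∑ j, (if |x j| < 1 then p j else 0) ≤ ε * ∑ j, p j := by
  classical
  have hs : 2 ≤ s := by omega
  set M : ℕ := s ^ 8 with hM
  have hM2 : 2 ≤ M := by
    calc 2 ≤ s := hs
      _ ≤ s ^ 8 := Nat.le_self_pow (by norm_num) s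
  choose X hX1 hX2 hX3 using block_k a t ht hcol s hs3 Y hY hsY ε h1 h2
  have hsR : (2 : ℝ) ≤ s := by exact_mod_cast hs
  let x : Fin n → ℝ := fun j => X (Nat.log M j) j
  have hxB : ∀ k, ∀ j ∈ B n M k, x j = X k j := by
    intro k j hj
    unfold B at hj
    rw [Finset.mem_filter] at hj
    simp only [x]
    rw [hj.2]
  have hmaps : ∀ j ∈ (Finset.univ : Finset (Fin n)), Nat.log M j ∈ Finset.range n := by
    intro j _
    rw [Finset.mem_range]
    exact lt_of_le_of_lt (Nat.log_le_self M j) j.2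
  have hfib : ∀ h : Fin n → ℝ, ∑ j, h j = ∑ k ∈ Finset.range n, ∑ j ∈ B n M k, h j := by
    intro h
    rw [← Finset.sum_fiberwise_of_maps_to hmaps]
    rfl
  refine ⟨x, fun j => hX1 _ j, ?_, ?_⟩
  · intro i
    rw [hfib]
    refine (Finset.abs_sum_le_sum_abs _ _).trans ?_
    have h3 : ∀ k ∈ Finset.range n, |∑ j ∈ B n M k, a i j * x j| ≤ cost t Y *
        (if rt (fun i j => Real.sqrt (gg (a i j) / t)) M (s ^ 4) i k ≤ (s : ℝ) ^ 3 then
          min 1 (s * rt (fun i j => Real.sqrt (gg (a i j) / t)) M (s ^ 4) i k) else 0) := by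
      intro k _
      have h4 : ∑ j ∈ B n M k, a i j * x j = ∑ j ∈ B n M k, a i j * X k j :=
        Finset.sum_congr rfl fun j hj => by rw [hxB k j hj]
      rw [h4]
      exact hX2 k i
    refine (Finset.sum_le_sum h3).trans ?_
    rw [← Finset.mul_sum]
    have h5 := sum_le_six (s : ℝ) hsR (fun k => rt (fun i j => Real.sqrt (gg (a i j) / t)) M (s ^ 4) i k)
      (fun k => rt_nonneg _ _ _ _ _) (fun k => rt_succ _ M s i k) n
    calc _ ≤ cost t Y * 6 := mul_le_mul_of_nonneg_left h5 (cost_nonneg ht)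
      _ = 6 * cost t Y := by ring
  · -- weights
    have hzero : ∑ j ∈ B n M 0, (if |x j| < 1 then p j else 0) ≤ 0 := by
      have h3 := hX3 0
      have h4 : ((B n M 0).filter (fun j => |X 0 j| < 1)).card = 0 := by
        have h5 : ((((B n M 0).filter (fun j => |X 0 j| < 1)).card : ℕ) : ℝ) < 1 := by
          refine lt_of_le_of_lt h3 ?_
          rw [pow_zero, one_mul]; linarith
        have h6 : ((B n M 0).filter (fun j => |X 0 j| < 1)).card < 1 := by exact_mod_cast h5
        omega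
      rw [Finset.card_eq_zero] at h4
      apply le_of_eq
      refine Finset.sum_eq_zero fun j hj => ?_
      rw [hxB 0 j hj, if_neg]
      intro h5
      have : j ∈ (B n M 0).filter (fun j => |X 0 j| < 1) := Finset.mem_filter.mpr ⟨hj, h5⟩
      rw [h4] at this
      exact absurd this (Finset.notMem_empty j)
    have hsucc : ∀ k, ∑ j ∈ B n M (k + 1), (if |x j| < 1 then p j else 0)
        ≤ ε * ∑ j ∈ B n M k, p j := by
      intro k
      set PB : ℝ := ∑ j ∈ B n M k, p j with hPB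
      have hPB0 : 0 ≤ PB := Finset.sum_nonneg fun j _ => hp0 j
      have hMk : (0 : ℝ) < (M : ℝ) ^ (k + 1) := by
        have : (0 : ℝ) < M := by exact_mod_cast (by omega : 0 < M)
        positivity
      have hpj : ∀ j ∈ B n M (k + 1), p j ≤ 2 / (M : ℝ) ^ (k + 1) * PB := by
        intro j hj
        have h3 := card_B_ge hM2 k j hj
        have h4 : ((B n M k).card : ℝ) * p j ≤ PB := by
          have h5 := Finset.card_nsmul_le_sum (B n M k) p (p j) (by
            intro i hi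
            apply hp
            unfold B at hi hj
            rw [Finset.mem_filter] at hi hj
            have : Nat.log M i < Nat.log M j := by omega
            have h6 : (i : ℕ) < j := by
              by_contra hcon
              push Not at hcon
              have := Nat.log_mono_right (b := M) hcon
              omega
            exact h6.le)
          rwa [nsmul_eq_mul] at h5
        have h5 : (M : ℝ) ^ (k + 1) / 2 * p j ≤ PB :=
          (mul_le_mul_of_nonneg_right h3 (hp0 j)).trans h4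
        rw [div_mul_eq_mul_div, le_div_iff₀ hMk]
        linarith
      have h3 : ∑ j ∈ B n M (k + 1), (if |x j| < 1 then p j else 0)
          = ∑ j ∈ (B n M (k + 1)).filter (fun j => |X (k + 1) j| < 1), p j := by
        rw [Finset.sum_filter]
        refine Finset.sum_congr rfl fun j hj => ?_
        rw [hxB (k + 1) j hj]
      rw [h3]
      have h4 : ∑ j ∈ (B n M (k + 1)).filter (fun j => |X (k + 1) j| < 1), p j
          ≤ (((B n M (k + 1)).filter (fun j => |X (k + 1) j| < 1)).card : ℝ)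
            * (2 / (M : ℝ) ^ (k + 1) * PB) := by
        have := Finset.sum_le_card_nsmul
          ((B n M (k + 1)).filter (fun j => |X (k + 1) j| < 1)) p
          (2 / (M : ℝ) ^ (k + 1) * PB) (fun j hj => hpj j (Finset.mem_filter.mp hj).1)
        rwa [nsmul_eq_mul] at this
      refine h4.trans ?_
      have h5 := hX3 (k + 1)
      calc _ ≤ ((M : ℝ) ^ (k + 1) * (ε / 2)) * (2 / (M : ℝ) ^ (k + 1) * PB) :=
            mul_le_mul_of_nonneg_right h5 (by positivity)
        _ = ε * PB := by field_simp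
    rw [hfib, hfib p]
    cases n with
    | zero => simp
    | succ m =>
      rw [Finset.sum_range_succ', Finset.mul_sum]
      have h3 : ∑ k ∈ Finset.range m, ∑ j ∈ B (m + 1) M (k + 1), (if |x j| < 1 then p j else 0)
          ≤ ∑ k ∈ Finset.range m, ε * ∑ j ∈ B (m + 1) M k, p j :=
        Finset.sum_le_sum fun k _ => hsucc k
      have h4 : 0 ≤ ε * ∑ j ∈ B (m + 1) M m, p j :=
        mul_nonneg hε0.le (Finset.sum_nonneg fun j _ => hp0 j)
      rw [Finset.sum_range_succ (fun k => ε * ∑ j ∈ B (m + 1) M k, p j)]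
      linarith

/-- Existence of the parameters. -/
theorem exists_params (ε : ℝ) (hε0 : 0 < ε) (hε2 : ε ≤ 1 / 2) :
    ∃ (s : ℕ) (Y : ℝ), 3 ≤ s ∧ 1 ≤ Y ∧ 960 * Y ≤ (s : ℝ) ^ 4 ∧ 16 ≤ ε * s ∧
      8 * (s : ℝ) ^ 8 * exp (-Y) ≤ ε ∧ Y ≤ 45 * log (1 / ε) := by
  set s : ℕ := ⌈16 / ε⌉₊ with hs
  have hs1 : 16 / ε ≤ s := Nat.le_ceil _
  have hs2 : (s : ℝ) < 16 / ε + 1 := Nat.ceil_lt_add_one (by positivity)
  have hs3 : 16 ≤ ε * s := by
    rw [div_le_iff₀ hε0] at hs1; linarith
  have hs4 : (32 : ℝ) ≤ s := by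
    refine le_trans ?_ hs1
    rw [le_div_iff₀ hε0]; linarith
  have hs5 : 3 ≤ s := by
    have : (3 : ℝ) ≤ s := by linarith
    exact_mod_cast this
  have hs6 : (s : ℝ) ≤ 17 / ε := by
    refine hs2.le.trans ?_
    rw [div_add_one hε0.ne']
    apply div_le_div_of_nonneg_right _ hε0.le
    linarith
  set K : ℝ := 8 * (s : ℝ) ^ 8 / ε with hK
  have hsR0 : (0 : ℝ) < s := by linarith
  have hKpos : 0 < K := by positivity
  have hK8 : exp 1 ≤ K := by
    have h1 : exp 1 ≤ 3 := by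
      have h3 := Real.exp_one_lt_d9
      linarith
    refine h1.trans ?_
    rw [hK, le_div_iff₀ hε0]
    have h2 : (1 : ℝ) ≤ (s : ℝ) ^ 8 := one_le_pow₀ (by linarith)
    nlinarith
  set S : ℝ := log K with hS
  have hS2 : 1 ≤ S := by
    rw [hS, Real.le_log_iff_exp_le hKpos]; exact hK8
  have hexpS : exp (-S) = 1 / K := by
    rw [exp_neg, hS, exp_log hKpos, one_div]
  -- upper bound for S
  have hL0 : 0 < log (1 / ε) := by
    apply Real.log_pos
    rw [lt_div_iff₀ hε0]; linarith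
  have hSL : S ≤ 45 * log (1 / ε) := by
    have h1 : K ≤ (1 / ε) ^ 45 := by
      have h2 : (s : ℝ) ^ 8 ≤ (17 / ε) ^ 8 := by gcongr
      have h3 : (2 : ℝ) ≤ 1 / ε := by
        rw [le_div_iff₀ hε0]; linarith
      have h4 : (2 : ℝ) ^ 36 ≤ (1 / ε) ^ 36 := by gcongr
      calc K = 8 * (s : ℝ) ^ 8 * (1 / ε) := by rw [hK]; ring
        _ ≤ 8 * (17 / ε) ^ 8 * (1 / ε) := by gcongr
        _ = (8 * 17 ^ 8) * (1 / ε) ^ 9 := by ring
        _ ≤ (1 / ε) ^ 36 * (1 / ε) ^ 9 := by
            apply mul_le_mul_of_nonneg_right _ (by positivity)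
            refine le_trans ?_ h4
            norm_num
        _ = (1 / ε) ^ 45 := by ring
    have h5 := Real.log_le_log hKpos h1
    rw [Real.log_pow] at h5
    push_cast at h5
    exact h5
  have hSs : S ≤ 9 * s := by
    have h1 : K ≤ (s : ℝ) ^ 9 := by
      rw [hK, div_le_iff₀ hε0]
      calc 8 * (s : ℝ) ^ 8 ≤ (s : ℝ) ^ 8 * 16 := by
            have : (0 : ℝ) ≤ (s : ℝ) ^ 8 := by positivity
            linarith
        _ ≤ (s : ℝ) ^ 8 * (ε * s) := mul_le_mul_of_nonneg_left hs3 (by positivity)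
        _ = (s : ℝ) ^ 9 * ε := by ring
    have h2 := Real.log_le_log hKpos h1
    rw [Real.log_pow] at h2
    have h3 := Real.log_le_sub_one_of_pos hsR0
    push_cast at h2
    linarith
  refine ⟨s, S, hs5, hS2, ?_, hs3, ?_, hSL⟩
  · have h1 : (8640 : ℝ) ≤ (s : ℝ) ^ 3 := by
      calc (8640 : ℝ) ≤ 32 ^ 3 := by norm_num
        _ ≤ (s : ℝ) ^ 3 := pow_le_pow_left₀ (by norm_num) hs4 3
    calc 960 * S ≤ 960 * (9 * s) := by linarith
      _ = 8640 * s := by ring
      _ ≤ (s : ℝ) ^ 3 * s := mul_le_mul_of_nonneg_right h1 hsR0.le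
      _ = (s : ℝ) ^ 4 := by ring
  · rw [hexpS, hK]
    apply le_of_eq
    field_simp

/-- The final bound. -/
noncomputable def fin (t ε : ℝ) : ℝ :=
  3240 * t + 940000 * Real.sqrt (log (1 / ε)) * (1 + Real.log t) ^ (3 / 2 : ℝ)

theorem cost_le_fin (t ε Y : ℝ) (ht : 1 ≤ t) (hε0 : 0 < ε) (hε2 : ε ≤ 1 / 2)
    (hY : Y ≤ 45 * log (1 / ε)) : 6 * cost t Y ≤ fin t ε := by
  have hL0 : 0 < log (1 / ε) := by
    apply Real.log_pos
    rw [lt_div_iff₀ hε0]; linarith
  have hlog : 0 ≤ Real.log t := Real.log_nonneg ht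
  have hp : 0 ≤ (1 + Real.log t) ^ (3 / 2 : ℝ) := by positivity
  have h1 : Real.sqrt (960 * Y) ≤ 208 * Real.sqrt (log (1 / ε)) := by
    have h2 : 960 * Y ≤ (208 * Real.sqrt (log (1 / ε))) ^ 2 := by
      rw [mul_pow, Real.sq_sqrt hL0.le]
      linarith
    have h3 := Real.sqrt_le_sqrt h2
    rwa [Real.sqrt_sq (by positivity)] at h3
  unfold cost fin
  have h2 : Real.sqrt (960 * Y) * (1 + Real.log t) ^ (3 / 2 : ℝ)
      ≤ 208 * Real.sqrt (log (1 / ε)) * (1 + Real.log t) ^ (3 / 2 : ℝ) :=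
    mul_le_mul_of_nonneg_right h1 hp
  have h3 : 0 ≤ Real.sqrt (log (1 / ε)) * (1 + Real.log t) ^ (3 / 2 : ℝ) := by positivity
  nlinarith

/-- Weighted statement for arbitrary weights. -/
theorem weighted (a : I → Fin n → ℝ) (t : ℝ) (ht : 1 ≤ t)
    (hcol : ∀ j, ∑ i, gg (a i j) ≤ t) (ε : ℝ) (hε0 : 0 < ε)
    (hε2 : ε ≤ 1 / 2) (p : Fin n → ℝ) (hp0 : ∀ j, 0 ≤ p j) :
    ∃ x : Fin n → ℝ, (∀ j, |x j| ≤ 1) ∧
      (∀ i, |∑ j, a i j * x j| ≤ fin t ε) ∧
      ∑ j, (if |x j| < 1 then p j else 0) ≤ ε * ∑ j, p j := by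
  classical
  obtain ⟨s, Y, h1, h2, h3, h4, h5, h6⟩ := exists_params ε hε0 hε2
  -- sort the weights
  let σ : Equiv.Perm (Fin n) := Tuple.sort (fun j => -p j)
  have hσ : Antitone (p ∘ σ) := by
    have h7 : Monotone ((fun j => -p j) ∘ σ) := Tuple.monotone_sort _
    intro i j hij
    have := h7 hij
    simp only [Function.comp_apply] at this ⊢
    linarith
  obtain ⟨x, hx1, hx2, hx3⟩ := weighted_aux (fun i j => a i (σ j)) t ht
    (fun j => hcol (σ j)) s h1 Y
    h2 h3 ε hε0 (by linarith) h4 h5 (p ∘ σ) (fun j => hp0 _) hσ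
  refine ⟨fun j => x (σ.symm j), fun j => hx1 _, ?_, ?_⟩
  · intro i
    have h7 : ∑ j, a i j * x (σ.symm j) = ∑ j, a i (σ j) * x j := by
      rw [← Equiv.sum_comp σ]
      refine Finset.sum_congr rfl fun j _ => ?_
      rw [Equiv.symm_apply_apply]
    rw [h7]
    exact (hx2 i).trans (cost_le_fin t ε Y ht hε0 hε2 h6)
  · have h7 : ∑ j, (if |x (σ.symm j)| < 1 then p j else 0)
        = ∑ j, (if |x j| < 1 then p (σ j) else 0) := by
      rw [← Equiv.sum_comp σ]
      refine Finset.sum_congr rfl fun j _ => ?_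
      rw [Equiv.symm_apply_apply]
    have h8 : ∑ j, (p ∘ σ) j = ∑ j, p j := by
      simp only [Function.comp_apply]
      exact Equiv.sum_comp σ p
    rw [h7]
    rw [h8] at hx3
    exact hx3

end Q156G
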